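import Mathlib

set_option autoImplicit false

open Set Filter

namespace Pool.Agent.DimType

/-- hypotheses on a family of permutations of `[0,b]` -/
structure Perm (g : ℕ → ℕ → ℕ) (u v : ℕ → ℕ) : Prop where
  le : ∀ b n, n ≤ b → g b n ≤ b
  inj : ∀ b n n', n ≤ b → n' ≤ b → g b n = g b n' → n = n'
  surj : ∀ b k, k ≤ b → ∃ n ≤ b, g b n = k
  H1 : ∀ n, 1 ≤ n → ∀ᶠ b in atTop, g b n = u n
  H2 : ∀ m, 1 ≤ m → ∀ᶠ b in atTop, g b (b - m) + v m = b
  H3 : ∀ K, ∃ K', ∀ b n, K' ≤ n → n + K' ≤ b → K ≤ g b n ∧ g b n + K ≤ b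
  H4 : ∀ K, ∃ K', ∀ b n, n ≤ b → K' ≤ g b n → g b n + K' ≤ b → K ≤ n ∧ n + K ≤ b

theorem eventually_lt {P : ℕ → ℕ → Prop} (N : ℕ) (h : ∀ k < N, ∀ᶠ b in atTop, P k b) :
    ∀ᶠ b in atTop, ∀ k < N, P k b := by
  have := (Finset.range N).eventually_all (l := atTop) (p := fun k b => P k b)
  have h2 := this.2 (fun k hk => h k (Finset.mem_range.1 hk))
  filter_upwards [h2] with b hb k hk
  exact hb k (Finset.mem_range.2 hk)

theorem half {g : ℕ → ℕ → ℕ} {u v : ℕ → ℕ} (h : Perm g u v) (N : ℕ) :
    ∀ᶠ b in atTop, ∀ k < N, ((∀ n, 1 ≤ n → u n ≠ k) ↔ (g b 0 = k ∨ g b b = k)) := by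
  obtain ⟨K', hK'⟩ := h.H3 N
  have e1 : ∀ᶠ b in atTop, ∀ n < K', 1 ≤ n → g b n = u n := by
    apply eventually_lt
    intro n _
    by_cases h1 : 1 ≤ n
    · filter_upwards [h.H1 n h1] with b hb _ using hb
    · exact Eventually.of_forall fun b h2 => absurd h2 h1
  have e2 : ∀ᶠ b in atTop, ∀ n < K', 1 ≤ n → g b (b - n) + v n = b := by
    apply eventually_lt
    intro n _
    by_cases h1 : 1 ≤ n
    · filter_upwards [h.H2 n h1] with b hb _ using hb
    · exact Eventually.of_forall fun b h2 => absurd h2 h1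
  have e3 : ∀ᶠ b in atTop, ∀ n < K', v n + N ≤ b := by
    apply eventually_lt
    intro n _
    exact eventually_ge_atTop _
  have e4 : ∀ᶠ b in atTop, ∀ k < N, (∃ n, 1 ≤ n ∧ u n = k) →
      ∃ n, 1 ≤ n ∧ n < b ∧ g b n = k := by
    apply eventually_lt
    intro k _
    by_cases h1 : ∃ n, 1 ≤ n ∧ u n = k
    · obtain ⟨n, hn, hk⟩ := h1
      filter_upwards [h.H1 n hn, eventually_gt_atTop n] with b hb hb2 _
      exact ⟨n, hn, hb2, by rw [hb, hk]⟩
    · exact Eventually.of_forall fun b h2 => absurd h2 h1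
  filter_upwards [e1, e2, e3, e4] with b h1 h2 h3 h4 k hk
  constructor
  · intro hu
    obtain ⟨n, hn, hgn⟩ := h.surj b k (by
      by_contra hlt
      have := h3 0
      by_cases hK : 0 < K'
      · have := h3 0 hK; omega
      · have hK0 : K' = 0 := by omega
        subst hK0
        have := hK' b 0 (le_refl _) (by omega)
        omega)
    rcases Nat.eq_zero_or_pos n with h0 | h0
    · subst h0; exact Or.inl hgn
    · by_cases hnb : n = b
      · subst hnb; exact Or.inr hgn
      · exfalso
        by_cases hc1 : n < K'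
        · exact hu n h0 (by rw [← h1 n hc1 h0]; exact hgn)
        · by_cases hc2 : b < n + K'
          · have h5 := h2 (b - n) (by omega) (by omega)
            have h6 := h3 (b - n) (by omega)
            rw [show b - (b - n) = n by omega, hgn] at h5
            omega
          · have := hK' b n (by omega) (by omega)
            omega
  · intro hg n hn hu
    obtain ⟨n', hn1, hn2, hgn⟩ := h4 k hk ⟨n, hn, hu⟩
    rcases hg with hg | hg
    · have := h.inj b 0 n' (Nat.zero_le _) (by omega) (by rw [hg, hgn])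
      omega
    · have := h.inj b b n' (le_refl _) (by omega) (by rw [hg, hgn])
      omega

theorem Perm.reflect {g : ℕ → ℕ → ℕ} {u v : ℕ → ℕ} (h : Perm g u v) :
    Perm (fun b n => b - g b (b - n)) v u where
  le := fun b n _ => Nat.sub_le _ _
  inj := by
    intro b n n' hn hn' e
    have h1 := h.le b (b - n) (Nat.sub_le _ _)
    have h2 := h.le b (b - n') (Nat.sub_le _ _)
    have e' : b - g b (b - n) = b - g b (b - n') := e
    have := h.inj b (b - n) (b - n') (Nat.sub_le _ _) (Nat.sub_le _ _) (by omega)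
    omega
  surj := by
    intro b k hk
    obtain ⟨n, hn, hg⟩ := h.surj b (b - k) (Nat.sub_le _ _)
    refine ⟨b - n, Nat.sub_le _ _, ?_⟩
    show b - g b (b - (b - n)) = k
    rw [show b - (b - n) = n by omega, hg]
    omega
  H1 := by
    intro n hn
    filter_upwards [h.H2 n hn] with b hb
    omega
  H2 := by
    intro m hm
    filter_upwards [h.H1 m hm, eventually_ge_atTop m] with b hb hmb
    rw [show b - (b - m) = m by omega, hb]
    have := h.le b m hmb
    omega
  H3 := by
    intro K
    obtain ⟨K', hK'⟩ := h.H3 K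
    refine ⟨K', fun b n h1 h2 => ?_⟩
    have h3 := hK' b (b - n) (by omega) (by omega)
    have h4 := h.le b (b - n) (Nat.sub_le _ _)
    constructor <;> omega
  H4 := by
    intro K
    obtain ⟨K', hK'⟩ := h.H4 K
    refine ⟨K', fun b n hn h1 h2 => ?_⟩
    have h4 := h.le b (b - n) (Nat.sub_le _ _)
    have h3 := hK' b (b - n) (Nat.sub_le _ _) (by omega) (by omega)
    constructor <;> omega

theorem count_two {g : ℕ → ℕ → ℕ} {u v : ℕ → ℕ} (h : Perm g u v) :
    ({k | ∀ n, 1 ≤ n → u n ≠ k} : Set ℕ).encard + ({k | ∀ n, 1 ≤ n → v n ≠ k} : Set ℕ).encard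
      = 2 := by
  obtain ⟨Q, hQ⟩ := h.H4 1
  have hQ0 : ∀ b, ¬ (Q ≤ g b 0 ∧ g b 0 + Q ≤ b) := by
    rintro b ⟨h1, h2⟩
    have := hQ b 0 (Nat.zero_le _) h1 h2
    omega
  have hQb : ∀ b, ¬ (Q ≤ g b b ∧ g b b + Q ≤ b) := by
    rintro b ⟨h1, h2⟩
    have := hQ b b (le_refl _) h1 h2
    omega
  have hL : ∀ k, (∀ n, 1 ≤ n → u n ≠ k) → k < Q := by
    intro k hk
    by_contra hlt
    obtain ⟨b, hb1, hb2⟩ := ((half h (k + 1)).and (eventually_ge_atTop (k + Q))).exists
    rcases (hb1 k (Nat.lt_succ_self k)).1 hk with h1 | h1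
    · exact hQ0 b ⟨by omega, by omega⟩
    · exact hQb b ⟨by omega, by omega⟩
  have hR : ∀ k, (∀ n, 1 ≤ n → v n ≠ k) → k < Q := by
    intro k hk
    by_contra hlt
    obtain ⟨b, hb1, hb2⟩ := ((half h.reflect (k + 1)).and (eventually_ge_atTop (k + Q))).exists
    have hle0 := h.le b 0 (Nat.zero_le _)
    have hleb := h.le b b (le_refl _)
    rcases (hb1 k (Nat.lt_succ_self k)).1 hk with h1 | h1
    · have h1' : b - g b (b - 0) = k := h1
      rw [Nat.sub_zero] at h1'
      exact hQb b ⟨by omega, by omega⟩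
    · have h1' : b - g b (b - b) = k := h1
      rw [Nat.sub_self] at h1'
      exact hQ0 b ⟨by omega, by omega⟩
  obtain ⟨b, ⟨hb1, hb2⟩, hb3⟩ :=
    (((half h Q).and (half h.reflect Q)).and (eventually_ge_atTop (2 * Q + 1))).exists
  have hle0 := h.le b 0 (Nat.zero_le _)
  have hleb := h.le b b (le_refl _)
  have hne : g b 0 ≠ g b b := by
    intro e
    have := h.inj b 0 b (Nat.zero_le _) (le_refl _) e
    omega
  have q0 := hQ0 b
  have qb := hQb b
  have hb2' : ∀ k < Q, ((∀ n, 1 ≤ n → v n ≠ k) ↔ (g b 0 + k = b ∨ g b b + k = b)) := by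
    intro k hk
    rw [hb2 k hk]
    simp only [Nat.sub_zero, Nat.sub_self]
    constructor
    · rintro (h1 | h1)
      · right; omega
      · left; omega
    · rintro (h1 | h1)
      · right; omega
      · left; omega
  generalize g b 0 = a at *
  generalize g b b = c at *
  by_cases ha : a < Q <;> by_cases hc : c < Q
  · have e1 : ({k | ∀ n, 1 ≤ n → u n ≠ k} : Set ℕ) = {a, c} := by
      ext k
      constructor
      · intro hk
        rcases (hb1 k (hL k hk)).1 hk with h1 | h1 <;> simp [h1]
      · rintro (rfl | hk)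
        · exact (hb1 _ ha).2 (Or.inl rfl)
        · rw [mem_singleton_iff] at hk
          subst hk
          exact (hb1 _ hc).2 (Or.inr rfl)
    have e2 : ({k | ∀ n, 1 ≤ n → v n ≠ k} : Set ℕ) = ∅ := by
      rw [eq_empty_iff_forall_notMem]
      intro k hk
      have hkQ := hR k hk
      rcases (hb2' k hkQ).1 hk with h1 | h1 <;> omega
    rw [e1, e2, encard_pair hne, encard_empty, add_zero]
  · have e1 : ({k | ∀ n, 1 ≤ n → u n ≠ k} : Set ℕ) = {a} := by
      ext k
      constructor
      · intro hk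
        have hkQ := hL k hk
        rcases (hb1 k hkQ).1 hk with h1 | h1
        · simp [h1]
        · omega
      · intro hk
        rw [mem_singleton_iff] at hk
        subst hk
        exact (hb1 _ ha).2 (Or.inl rfl)
    have e2 : ({k | ∀ n, 1 ≤ n → v n ≠ k} : Set ℕ) = {b - c} := by
      ext k
      constructor
      · intro hk
        have hkQ := hR k hk
        rw [mem_singleton_iff]
        rcases (hb2' k hkQ).1 hk with h1 | h1 <;> omega
      · intro hk
        rw [mem_singleton_iff] at hk
        subst hk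
        exact (hb2' _ (by omega)).2 (Or.inr (by omega))
    rw [e1, e2, encard_singleton, encard_singleton]
    norm_num
  · have e1 : ({k | ∀ n, 1 ≤ n → u n ≠ k} : Set ℕ) = {c} := by
      ext k
      constructor
      · intro hk
        have hkQ := hL k hk
        rcases (hb1 k hkQ).1 hk with h1 | h1
        · omega
        · simp [h1]
      · intro hk
        rw [mem_singleton_iff] at hk
        subst hk
        exact (hb1 _ hc).2 (Or.inr rfl)
    have e2 : ({k | ∀ n, 1 ≤ n → v n ≠ k} : Set ℕ) = {b - a} := by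
      ext k
      constructor
      · intro hk
        have hkQ := hR k hk
        rw [mem_singleton_iff]
        rcases (hb2' k hkQ).1 hk with h1 | h1 <;> omega
      · intro hk
        rw [mem_singleton_iff] at hk
        subst hk
        exact (hb2' _ (by omega)).2 (Or.inl (by omega))
    rw [e1, e2, encard_singleton, encard_singleton]
    norm_num
  · have e1 : ({k | ∀ n, 1 ≤ n → u n ≠ k} : Set ℕ) = ∅ := by
      rw [eq_empty_iff_forall_notMem]
      intro k hk
      have hkQ := hL k hk
      rcases (hb1 k hkQ).1 hk with h1 | h1 <;> omega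
    have e2 : ({k | ∀ n, 1 ≤ n → v n ≠ k} : Set ℕ) = {b - a, b - c} := by
      ext k
      constructor
      · intro hk
        have hkQ := hR k hk
        rcases (hb2' k hkQ).1 hk with h1 | h1
        · left; omega
        · right; rw [mem_singleton_iff]; omega
      · rintro (hk | hk)
        · exact (hb2' _ (by omega)).2 (Or.inl (by omega))
        · rw [mem_singleton_iff] at hk
          exact (hb2' _ (by omega)).2 (Or.inr (by omega))
    rw [e1, e2, encard_pair (by omega), encard_empty, zero_add]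

end Pool.Agent.DimType
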