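import Mathlib

set_option autoImplicit false

open Set Topology Cardinal TopologicalSpace

namespace Pool.Agent.DimType

/-- Transfinite choice along a well-founded relation. -/
theorem wf_choice {T A : Type*} {r : T → T → Prop} (wf : WellFounded r)
    (R : (t : T) → ((s : {s // r s t}) → A) → A → Prop)
    (h : ∀ t prev, ∃ a, R t prev a) :
    ∃ F : T → A, ∀ t, R t (fun s => F s.1) (F t) := by
  classical
  let step : (t : T) → ((s : T) → r s t → A) → A :=
    fun t ih => Classical.choose (h t (fun s => ih s.1 s.2))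
  refine ⟨wf.fix step, fun t => ?_⟩
  have e : wf.fix step t = step t (fun s _ => wf.fix step s) := wf.fix_eq step t
  rw [e]
  exact Classical.choose_spec (h t (fun s => wf.fix step s.1))

variable {X : Type} [TopologicalSpace X]

/-- The limit relation of a sequence of pairs, single valued at the first coordinate. -/
def Lim (s : ℕ → X × X) (p : X × X) : Prop :=
  p ∈ closure (range s) ∧ ∀ y', (p.1, y') ∈ closure (range s) → y' = p.2

theorem rigid_exists [T2Space X] [SecondCountableTopology X] [Nonempty X]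
    (hcard : ∀ U : Set X, IsOpen U → U.Nonempty → #U = 𝔠) :
    ∃ E : Set X, (∀ U : Set X, IsOpen U → U.Nonempty → #(U ∩ E : Set X) = 𝔠) ∧
      ∀ U : Set X, IsOpen U → ∀ h : X → X, ContinuousOn h (U ∩ E) → InjOn h (U ∩ E) →
        MapsTo h (U ∩ E) E → ∀ x ∈ U ∩ E, h x = x := by
  classical
  have hX : #X = 𝔠 := by
    have := hcard univ isOpen_univ univ_nonempty
    rwa [mk_univ] at this
  have hs : #(ℕ → X × X) = 𝔠 := by
    simp [hX]
  let T := (countableBasis X) × (ℕ → X × X)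
  have hB : #(countableBasis X) ≤ ℵ₀ := (countable_countableBasis X).le_aleph0
  have hT : #T ≤ 𝔠 := by
    have : #T = #(countableBasis X) * #(ℕ → X × X) := by simp [T]
    rw [this, hs]
    calc #(countableBasis X) * 𝔠 ≤ ℵ₀ * 𝔠 := by gcongr
      _ = 𝔠 := aleph0_mul_continuum
  obtain ⟨r, wo, hr⟩ := Cardinal.exists_ord_eq T
  have hinit : ∀ t : T, #{s // r s t} < 𝔠 := by
    intro t
    have h1 := Cardinal.card_typein_lt (r := r) t hr
    have h2 : ((Ordinal.typein r).toRelEmbedding t).card = #{s // r s t} := by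
      exact Ordinal.card_typein t
    rw [h2] at h1
    exact lt_of_lt_of_le h1 hT
  -- the recursion
  let base : (t : T) → ((s : {s // r s t}) → X × X) → X × X → Prop := fun t prev p =>
    p.1 ∈ (t.1 : Set X) ∧ (∀ s, p.1 ≠ (prev s).1) ∧ (∀ s, p.1 ≠ (prev s).2) ∧ p.2 ≠ p.1 ∧
      ∀ s, p.2 ≠ (prev s).1
  let R : (t : T) → ((s : {s // r s t}) → X × X) → X × X → Prop := fun t prev p =>
    base t prev p ∧ ((∃ q, base t prev q ∧ Lim t.2 q) → Lim t.2 p)
  have hbase : ∀ t prev, ∃ p, base t prev p := by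
    intro t prev
    have hU : #(t.1 : Set X) = 𝔠 :=
      hcard _ (isOpen_of_mem_countableBasis t.1.2) (nonempty_of_mem_countableBasis t.1.2)
    let S : Set X := range (fun s => (prev s).1) ∪ range (fun s => (prev s).2)
    have hS : #S < 𝔠 := by
      refine lt_of_le_of_lt (mk_union_le _ _) ?_
      refine add_lt_of_lt aleph0_le_continuum ?_ ?_
      · exact lt_of_le_of_lt mk_range_le (hinit t)
      · exact lt_of_le_of_lt mk_range_le (hinit t)
    have hnot : ¬ (t.1 : Set X) ⊆ S := by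
      intro hsub
      have := mk_le_mk_of_subset hsub
      rw [hU] at this
      exact absurd hS (not_lt.mpr this)
    obtain ⟨x, hx, hxS⟩ := not_subset.mp hnot
    have hS' : #(S ∪ {x} : Set X) < 𝔠 := by
      refine lt_of_le_of_lt (mk_union_le _ _) ?_
      refine add_lt_of_lt aleph0_le_continuum hS ?_
      rw [mk_singleton]
      exact lt_of_lt_of_le one_lt_aleph0 aleph0_le_continuum
    have hnot' : ¬ (t.1 : Set X) ⊆ S ∪ {x} := by
      intro hsub
      have := mk_le_mk_of_subset hsub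
      rw [hU] at this
      exact absurd hS' (not_lt.mpr this)
    obtain ⟨y, hy, hyS⟩ := not_subset.mp hnot'
    refine ⟨(x, y), hx, ?_, ?_, ?_, ?_⟩
    · intro s e; exact hxS (Or.inl ⟨s, e.symm⟩)
    · intro s e; exact hxS (Or.inr ⟨s, e.symm⟩)
    · intro e; exact hyS (Or.inr e)
    · intro s e; exact hyS (Or.inl (Or.inl ⟨s, e.symm⟩))
  have hR : ∀ t prev, ∃ p, R t prev p := by
    intro t prev
    by_cases hq : ∃ q, base t prev q ∧ Lim t.2 q
    · obtain ⟨q, hq1, hq2⟩ := hq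
      exact ⟨q, hq1, fun _ => hq2⟩
    · obtain ⟨p, hp⟩ := hbase t prev
      exact ⟨p, hp, fun h => absurd h hq⟩
  obtain ⟨F, hF⟩ := wf_choice (r := r) wo.wf R hR
  -- basic properties
  have hlt : ∀ s t, r s t → (F t).1 ≠ (F s).1 ∧ (F t).1 ≠ (F s).2 ∧ (F t).2 ≠ (F s).1 := by
    intro s t hst
    obtain ⟨⟨_, h1, h2, _, h3⟩, _⟩ := hF t
    exact ⟨h1 ⟨s, hst⟩, h2 ⟨s, hst⟩, h3 ⟨s, hst⟩⟩
  have hinj : Function.Injective (fun t => (F t).1) := by
    intro s t e
    rcases trichotomous_of r s t with h | h | h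
    · exact absurd e.symm (hlt s t h).1
    · exact h
    · exact absurd e (hlt t s h).1
  let E : Set X := range (fun t => (F t).1)
  have hyE : ∀ t, (F t).2 ∉ E := by
    rintro t ⟨s, e⟩
    rcases trichotomous_of r s t with h | h | h
    · exact (hlt s t h).2.2 e.symm
    · subst h
      exact (hF s).1.2.2.2.1 e.symm
    · exact (hlt t s h).2.1 e
  have hE : ∀ U : Set X, IsOpen U → U.Nonempty → #(U ∩ E : Set X) = 𝔠 := by
    intro U hU hne
    apply le_antisymm
    · calc #(U ∩ E : Set X) ≤ #X := mk_set_le _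
        _ = 𝔠 := hX
    · obtain ⟨x, hx⟩ := hne
      obtain ⟨B, hB, hxB, hBU⟩ := (isBasis_countableBasis X).exists_subset_of_mem_open hx hU
      have : #(ℕ → X × X) ≤ #(U ∩ E : Set X) := by
        refine mk_le_of_injective (f := fun s => ⟨(F (⟨B, hB⟩, s)).1, ?_, ?_⟩) ?_
        · exact hBU (hF (⟨B, hB⟩, s)).1.1
        · exact ⟨_, rfl⟩
        · intro s s' e
          have e' := hinj (Subtype.ext_iff.mp e)
          exact (Prod.ext_iff.mp e').2
      rwa [hs] at this
  refine ⟨E, hE, ?_⟩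
  intro U hU h hc hi hm x₀ hx₀
  by_contra hne
  -- separate
  obtain ⟨V₁, V₂, hV₁, hV₂, hx₁, hx₂, hdis⟩ := t2_separation (Ne.symm hne)
  have hW := (hc x₀ hx₀).preimage_mem_nhdsWithin (hV₂.mem_nhds hx₂)
  rw [mem_nhdsWithin] at hW
  obtain ⟨W, hWo, hxW, hWs⟩ := hW
  obtain ⟨B, hB, hxB, hBs⟩ := (isBasis_countableBasis X).exists_subset_of_mem_open
    (show x₀ ∈ W ∩ V₁ ∩ U from ⟨⟨hxW, hx₁⟩, hx₀.1⟩) ((hWo.inter hV₁).inter hU)
  have hBo : IsOpen B := isOpen_of_mem_countableBasis hB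
  have hBU : B ∩ E ⊆ U ∩ E := fun z hz => ⟨(hBs hz.1).2, hz.2⟩
  have hne' : ∀ z ∈ B ∩ E, h z ≠ z := by
    intro z hz e
    have h1 : h z ∈ V₂ := hWs ⟨(hBs hz.1).1.1, hBU hz⟩
    have h2 : z ∈ V₁ := (hBs hz.1).1.2
    rw [e] at h1
    exact (disjoint_left.mp hdis) h2 h1
  -- dense sequence in B ∩ E
  haveI : Nonempty (B ∩ E : Set X) := ⟨⟨x₀, hxB, hx₀.2⟩⟩
  let d : ℕ → (B ∩ E : Set X) := denseSeq (B ∩ E : Set X)
  have hd : ∀ z ∈ B ∩ E, z ∈ closure (range (fun n => (d n : X))) := by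
    intro z hz
    have h1 : (⟨z, hz⟩ : (B ∩ E : Set X)) ∈ closure (range d) := by
      have := denseRange_denseSeq (B ∩ E : Set X)
      rw [this.closure_range]; trivial
    have h2 := image_closure_subset_closure_image (f := (Subtype.val : (B ∩ E : Set X) → X))
      continuous_subtype_val (mem_image_of_mem _ h1)
    rw [← range_comp] at h2
    exact h2
  let s : ℕ → X × X := fun n => ((d n : X), h (d n))
  let t : T := (⟨B, hB⟩, s)
  have hcl : ∀ z ∈ B ∩ E, (z, h z) ∈ closure (range s) := by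
    intro z hz
    have hcz : Filter.Tendsto h (𝓝[range (fun n => (d n : X))] z) (𝓝 (h z)) := by
      have h1 := hc z (hBU hz)
      refine h1.mono_left (nhdsWithin_mono _ ?_)
      rintro _ ⟨n, rfl⟩
      exact hBU (d n).2
    haveI : (𝓝[range (fun n => (d n : X))] z).NeBot := mem_closure_iff_nhdsWithin_neBot.mp (hd z hz)
    refine mem_closure_of_tendsto (f := fun w => (w, h w))
      (b := 𝓝[range (fun n => (d n : X))] z) ?_ ?_
    · exact (Filter.Tendsto.mono_left Filter.tendsto_id nhdsWithin_le_nhds).prodMk_nhds hcz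
    · filter_upwards [self_mem_nhdsWithin]
      rintro w ⟨n, rfl⟩
      exact ⟨n, rfl⟩
  have hsv : ∀ z ∈ B ∩ E, ∀ y', (z, y') ∈ closure (range s) → y' = h z := by
    intro z hz y' hy'
    by_contra hyn
    obtain ⟨O₁, O₂, hO₁, hO₂, hz1, hz2, hdO⟩ := t2_separation (Ne.symm hyn)
    have hG := (hc z (hBU hz)).preimage_mem_nhdsWithin (hO₁.mem_nhds hz1)
    rw [mem_nhdsWithin] at hG
    obtain ⟨G, hGo, hzG, hGs⟩ := hG
    rw [mem_closure_iff] at hy'
    obtain ⟨p, hp1, ⟨n, rfl⟩⟩ := hy' (G ×ˢ O₂) (hGo.prod hO₂) ⟨hzG, hz2⟩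
    have h1 : h (d n) ∈ O₁ := hGs ⟨hp1.1, hBU (d n).2⟩
    exact (disjoint_left.mp hdO) h1 hp1.2
  -- existence of a good pair at stage t
  have hgood : ∃ q, base t (fun s => F s.1) q ∧ Lim t.2 q := by
    let Xt : Set X := range (fun s : {s // r s t} => (F s.1).1)
    let Yt : Set X := range (fun s : {s // r s t} => (F s.1).2)
    let Ht : Set X := {z | z ∈ B ∩ E ∧ h z ∈ Xt}
    have c1 : #Xt < 𝔠 := lt_of_le_of_lt mk_range_le (hinit t)
    have c2 : #Yt < 𝔠 := lt_of_le_of_lt mk_range_le (hinit t)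
    have c3 : #Ht < 𝔠 := by
      refine lt_of_le_of_lt ?_ c1
      refine mk_le_of_injective (f := fun z => ⟨h z.1, z.2.2⟩) ?_
      intro z z' e
      exact Subtype.ext (hi (hBU z.2.1) (hBU z'.2.1) (Subtype.ext_iff.mp e))
    have c4 : #((Xt ∪ Yt) ∪ Ht : Set X) < 𝔠 := by
      refine lt_of_le_of_lt (mk_union_le _ _) ?_
      refine add_lt_of_lt aleph0_le_continuum ?_ c3
      refine lt_of_le_of_lt (mk_union_le _ _) ?_
      exact add_lt_of_lt aleph0_le_continuum c1 c2
    have hnot : ¬ (B ∩ E) ⊆ (Xt ∪ Yt) ∪ Ht := by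
      intro hsub
      have := mk_le_mk_of_subset hsub
      rw [hE B hBo ⟨x₀, hxB⟩] at this
      exact absurd c4 (not_lt.mpr this)
    obtain ⟨x, hx, hxn⟩ := not_subset.mp hnot
    refine ⟨(x, h x), ⟨hx.1, ?_, ?_, hne' x hx, ?_⟩, hcl x hx, hsv x hx⟩
    · intro s e; exact hxn (Or.inl (Or.inl ⟨s, e.symm⟩))
    · intro s e; exact hxn (Or.inl (Or.inr ⟨s, e.symm⟩))
    · intro s e; exact hxn (Or.inr ⟨hx, ⟨s, e.symm⟩⟩)
  have hlim := (hF t).2 hgood
  have hxt : (F t).1 ∈ B ∩ E := ⟨(hF t).1.1, ⟨t, rfl⟩⟩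
  have := hlim.2 (h (F t).1) (hcl _ hxt)
  have h2 : h (F t).1 ∈ E := hm (hBU hxt)
  rw [this] at h2
  exact hyE t h2

end Pool.Agent.DimType
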