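import Mathlib

set_option autoImplicit false

open Set Topology Cardinal TopologicalSpace

namespace Pool.Agent.DimType

/-- A space with a countable family of clopen sets that controls its topology and separates
points embeds into the real line. -/
theorem embeds_real {W Idx : Type*} [TopologicalSpace W] [Countable Idx] [Nonempty Idx]
    (C : Idx → Set W) (hC : ∀ k, IsClopen (C k))
    (hb : ∀ (z : W) (U : Set W), IsOpen U → z ∈ U →
      ∃ I : Finset Idx, ∀ w, (∀ k ∈ I, (w ∈ C k ↔ z ∈ C k)) → w ∈ U)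
    (hinj : ∀ z w : W, (∀ k, z ∈ C k ↔ w ∈ C k) → z = w) :
    ∃ e : W → ℝ, IsEmbedding e := by
  classical
  let f : W → (Idx → Bool) := fun z k => (C k).boolIndicator z
  have hfk : ∀ z w k, (C k).boolIndicator z = (C k).boolIndicator w ↔ (z ∈ C k ↔ w ∈ C k) := by
    intro z w k
    by_cases h1 : z ∈ C k <;> by_cases h2 : w ∈ C k <;>
      simp [boolIndicator, h1, h2]
  have hf : IsEmbedding f := by
    refine ⟨⟨?_⟩, ?_⟩
    · apply le_antisymm
      · rw [← continuous_iff_le_induced]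
        exact continuous_pi fun k => (continuous_boolIndicator_iff_isClopen _).2 (hC k)
      · intro U hU
        rw [isOpen_induced_iff]
        refine ⟨⋃ z ∈ U, ⋃ I ∈ {I : Finset Idx | ∀ w, (∀ k ∈ I, (w ∈ C k ↔ z ∈ C k)) → w ∈ U},
          {g | ∀ k ∈ I, g k = f z k}, ?_, ?_⟩
        · refine isOpen_biUnion fun z _ => isOpen_biUnion fun I _ => ?_
          have : {g : Idx → Bool | ∀ k ∈ I, g k = f z k} =
              ⋂ k ∈ I, (fun g : Idx → Bool => g k) ⁻¹' {f z k} := by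
            ext g; simp
          rw [this]
          exact isOpen_biInter_finset fun k _ => (isOpen_discrete _).preimage (continuous_apply k)
        · ext w
          simp only [mem_preimage, mem_iUnion, mem_ofPred_eq, exists_prop]
          constructor
          · rintro ⟨z, hz, I, hI, h⟩
            exact hI w fun k hk => (hfk w z k).1 (h k hk)
          · intro hw
            obtain ⟨I, hI⟩ := hb w U hU hw
            exact ⟨w, hw, I, hI, fun k _ => rfl⟩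
    · intro z w e
      exact hinj z w fun k => (hfk z w k).1 (congrFun e k)
  obtain ⟨s, hs⟩ := exists_surjective_nat Idx
  let g : (Idx → Bool) → (ℕ → Bool) := fun u => u ∘ s
  have hg : IsEmbedding g := by
    have hc : Continuous g := continuous_pi fun n => continuous_apply (s n)
    have hi : Function.Injective g := by
      intro u v e
      funext k
      obtain ⟨n, rfl⟩ := hs k
      exact congrFun e n
    exact (hc.isClosedEmbedding hi).isEmbedding
  have hh : IsEmbedding (fun u : ℕ → Bool => ((cantorSetHomeomorphNatToBool.symm u : cantorSet) : ℝ)) :=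
    IsEmbedding.subtypeVal.comp cantorSetHomeomorphNatToBool.symm.isEmbedding
  exact ⟨_, hh.comp (hg.comp hf)⟩

/-- Labels `(i, j, b)`. -/
abbrev Lab := Bool × ℕ × ℕ

/-- The ambient zero-dimensional space. -/
abbrev X := Lab × (ℕ → Bool)

theorem card_open (U : Set X) (hU : IsOpen U) (hne : U.Nonempty) : #U = 𝔠 := by
  classical
  apply le_antisymm
  · calc #U ≤ #X := mk_set_le _
      _ = 𝔠 := by
        simp [X, Lab]
  · obtain ⟨⟨l, x⟩, hx⟩ := hne
    have hV : IsOpen {y : ℕ → Bool | (l, y) ∈ U} := hU.preimage (Continuous.prodMk_right l)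
    rw [isOpen_pi_iff] at hV
    obtain ⟨I, u, hu, hsub⟩ := hV x hx
    let N := I.sup id + 1
    have hN : ∀ k ∈ I, k < N := fun k hk => Nat.lt_succ_of_le (Finset.le_sup (f := id) hk)
    have : #(ℕ → Bool) ≤ #U := by
      refine mk_le_of_injective (f := fun z => ⟨(l, fun n => if n < N then x n else z (n - N)), ?_⟩) ?_
      · apply hsub
        intro k hk
        have := hN k hk
        simp only [this, if_true]
        exact (hu k hk).2
      · intro z z' e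
        have e1 := (Prod.ext_iff.mp (Subtype.ext_iff.mp e)).2
        funext n
        have := congrFun e1 (n + N)
        simpa using this
    simpa using this

/-- The big space: blocks, left points, right points and infinity. -/
inductive W : Type
  | blk (x : X) (n : ℕ) : W
  | L (i : Bool) (n : ℕ) : W
  | R (j m : ℕ) : W
  | inf : W

open W

/-- first label -/
def ii (x : X) : Bool := x.1.1
/-- second label -/
def jj (x : X) : ℕ := x.1.2.1
/-- length label -/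
def bb (x : X) : ℕ := x.1.2.2

/-- Open sets of the big space. -/
def WOpen (U : Set W) : Prop :=
  (∀ n, IsOpen {x | blk x n ∈ U}) ∧
  (∀ i n, L i n ∈ U → ∃ N, ∀ x, ii x = i → N ≤ bb x → blk x n ∈ U) ∧
  (∀ j m, R j m ∈ U → ∃ N, ∀ x k, jj x = j → N ≤ bb x → k + m = bb x → blk x k ∈ U) ∧
  (inf ∈ U → ∃ N, (∀ i n, N ≤ n → L i n ∈ U) ∧ (∀ j m, N ≤ m → R j m ∈ U) ∧
    ∀ x n, N ≤ n → n + N ≤ bb x → blk x n ∈ U)

instance : TopologicalSpace W where
  IsOpen := WOpen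
  isOpen_univ := by
    refine ⟨fun n => by simp, fun _ _ _ => ⟨0, by simp⟩, fun _ _ _ => ⟨0, by simp⟩,
      fun _ => ⟨0, by simp⟩⟩
  isOpen_inter := by
    rintro U V ⟨u1, u2, u3, u4⟩ ⟨v1, v2, v3, v4⟩
    refine ⟨fun n => (u1 n).inter (v1 n), ?_, ?_, ?_⟩
    · rintro i n ⟨h1, h2⟩
      obtain ⟨N, hN⟩ := u2 i n h1
      obtain ⟨M, hM⟩ := v2 i n h2
      exact ⟨max N M, fun x hx hb => ⟨hN x hx (le_trans (le_max_left _ _) hb),
        hM x hx (le_trans (le_max_right _ _) hb)⟩⟩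
    · rintro j m ⟨h1, h2⟩
      obtain ⟨N, hN⟩ := u3 j m h1
      obtain ⟨M, hM⟩ := v3 j m h2
      exact ⟨max N M, fun x k hx hb hk => ⟨hN x k hx (le_trans (le_max_left _ _) hb) hk,
        hM x k hx (le_trans (le_max_right _ _) hb) hk⟩⟩
    · rintro ⟨h1, h2⟩
      obtain ⟨N, hN1, hN2, hN3⟩ := u4 h1
      obtain ⟨M, hM1, hM2, hM3⟩ := v4 h2
      refine ⟨max N M, ?_, ?_, ?_⟩
      · intro i n hn
        exact ⟨hN1 i n (le_trans (le_max_left _ _) hn), hM1 i n (le_trans (le_max_right _ _) hn)⟩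
      · intro i n hn
        exact ⟨hN2 i n (le_trans (le_max_left _ _) hn), hM2 i n (le_trans (le_max_right _ _) hn)⟩
      · intro x n hn hb
        have h1 := le_max_left N M
        have h2 := le_max_right N M
        exact ⟨hN3 x n (by omega) (by omega), hM3 x n (by omega) (by omega)⟩
  isOpen_sUnion := by
    intro S hS
    refine ⟨?_, ?_, ?_, ?_⟩
    · intro n
      have : {x | blk x n ∈ ⋃₀ S} = ⋃ U ∈ S, {x | blk x n ∈ U} := by
        ext x; simp
      rw [this]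
      exact isOpen_biUnion fun U hU => (hS U hU).1 n
    · rintro i n ⟨U, hU, h⟩
      obtain ⟨N, hN⟩ := (hS U hU).2.1 i n h
      exact ⟨N, fun x hx hb => ⟨U, hU, hN x hx hb⟩⟩
    · rintro i n ⟨U, hU, h⟩
      obtain ⟨N, hN⟩ := (hS U hU).2.2.1 i n h
      exact ⟨N, fun x k hx hb hk => ⟨U, hU, hN x k hx hb hk⟩⟩
    · rintro ⟨U, hU, h⟩
      obtain ⟨N, hN1, hN2, hN3⟩ := (hS U hU).2.2.2 h
      exact ⟨N, fun i n hn => ⟨U, hU, hN1 i n hn⟩, fun i n hn => ⟨U, hU, hN2 i n hn⟩,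
        fun x n hn hb => ⟨U, hU, hN3 x n hn hb⟩⟩

theorem isOpen_iff' (U : Set W) : IsOpen U ↔ WOpen U := Iff.rfl


theorem isOpen_lab (P : Lab → Prop) : IsOpen {x : X | P x.1} :=
  (isOpen_discrete {l | P l}).preimage continuous_fst

/-- neighbourhoods of left points -/
def oL (i : Bool) (n N : ℕ) : Set W := {z | match z with
  | blk x k => k = n ∧ ii x = i ∧ N ≤ bb x
  | L i' n' => i' = i ∧ n' = n
  | _ => False}

@[simp] theorem blk_mem_oL (i n N x k) : blk x k ∈ oL i n N ↔ k = n ∧ ii x = i ∧ N ≤ bb x := Iff.rfl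
@[simp] theorem L_mem_oL (i n N i' n') : L i' n' ∈ oL i n N ↔ i' = i ∧ n' = n := Iff.rfl
@[simp] theorem R_mem_oL (i n N j m) : R j m ∈ oL i n N ↔ False := Iff.rfl
@[simp] theorem inf_mem_oL (i n N) : inf ∈ oL i n N ↔ False := Iff.rfl

/-- neighbourhoods of right points -/
def oR (j m N : ℕ) : Set W := {z | match z with
  | blk x k => jj x = j ∧ k + m = bb x ∧ N ≤ bb x
  | R j' m' => j' = j ∧ m' = m
  | _ => False}

@[simp] theorem blk_mem_oR (j m N x k) :
    blk x k ∈ oR j m N ↔ jj x = j ∧ k + m = bb x ∧ N ≤ bb x := Iff.rfl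
@[simp] theorem L_mem_oR (j m N i' n') : L i' n' ∈ oR j m N ↔ False := Iff.rfl
@[simp] theorem R_mem_oR (j m N j' m') : R j' m' ∈ oR j m N ↔ j' = j ∧ m' = m := Iff.rfl
@[simp] theorem inf_mem_oR (j m N) : inf ∈ oR j m N ↔ False := Iff.rfl

/-- basic neighbourhoods of infinity -/
def oI (N : ℕ) : Set W := {z | match z with
  | blk x k => N ≤ k ∧ k + N ≤ bb x
  | L _ n => N ≤ n
  | R _ m => N ≤ m
  | inf => True}

@[simp] theorem blk_mem_oI (N x k) : blk x k ∈ oI N ↔ N ≤ k ∧ k + N ≤ bb x := Iff.rfl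
@[simp] theorem L_mem_oI (N i n) : L i n ∈ oI N ↔ N ≤ n := Iff.rfl
@[simp] theorem R_mem_oI (N j m) : R j m ∈ oI N ↔ N ≤ m := Iff.rfl
@[simp] theorem inf_mem_oI (N) : inf ∈ oI N ↔ True := Iff.rfl

/-- auxiliary clopen sets -/
def oC (N : ℕ) : Set W := {z | match z with
  | blk x k => k + N ≤ bb x
  | L _ _ => True
  | R _ m => N ≤ m
  | inf => True}

@[simp] theorem blk_mem_oC (N x k) : blk x k ∈ oC N ↔ k + N ≤ bb x := Iff.rfl
@[simp] theorem L_mem_oC (N i n) : L i n ∈ oC N ↔ True := Iff.rfl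
@[simp] theorem R_mem_oC (N j m) : R j m ∈ oC N ↔ N ≤ m := Iff.rfl
@[simp] theorem inf_mem_oC (N) : inf ∈ oC N ↔ True := Iff.rfl

/-- sets inside blocks -/
def oD (l : Lab) (n : ℕ) (V : Set X) : Set W := {z | match z with
  | blk x k => k = n ∧ x.1 = l ∧ x ∈ V
  | _ => False}

@[simp] theorem blk_mem_oD (l n V x k) : blk x k ∈ oD l n V ↔ k = n ∧ x.1 = l ∧ x ∈ V := Iff.rfl
@[simp] theorem L_mem_oD (l n V i' n') : L i' n' ∈ oD l n V ↔ False := Iff.rfl
@[simp] theorem R_mem_oD (l n V i' n') : R i' n' ∈ oD l n V ↔ False := Iff.rfl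
@[simp] theorem inf_mem_oD (l n V) : inf ∈ oD l n V ↔ False := Iff.rfl

/-- all copies of the blocks with label `l` -/
def oK (l : Lab) : Set W := {z | match z with
  | blk x k => x.1 = l ∧ k ≤ l.2.2
  | _ => False}

@[simp] theorem blk_mem_oK (l x k) : blk x k ∈ oK l ↔ x.1 = l ∧ k ≤ l.2.2 := Iff.rfl
@[simp] theorem L_mem_oK (l i' n') : L i' n' ∈ oK l ↔ False := Iff.rfl
@[simp] theorem R_mem_oK (l i' n') : R i' n' ∈ oK l ↔ False := Iff.rfl
@[simp] theorem inf_mem_oK (l) : inf ∈ oK l ↔ False := Iff.rfl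

theorem isOpen_oL (i : Bool) (n N : ℕ) : IsOpen (oL i n N) := by
  rw [isOpen_iff']
  refine ⟨fun k => isOpen_lab (fun l => k = n ∧ l.1 = i ∧ N ≤ l.2.2), ?_, ?_, ?_⟩
  · rintro i' n' ⟨rfl, rfl⟩
    exact ⟨N, fun x hx hb => ⟨rfl, hx, hb⟩⟩
  · intro j m h; exact h.elim
  · intro h; exact h.elim

theorem isOpen_oR (j m N : ℕ) : IsOpen (oR j m N) := by
  rw [isOpen_iff']
  refine ⟨fun k => isOpen_lab (fun l => l.2.1 = j ∧ k + m = l.2.2 ∧ N ≤ l.2.2), ?_, ?_, ?_⟩
  · intro j m h; exact h.elim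
  · rintro j' m' ⟨rfl, rfl⟩
    exact ⟨N, fun x k hx hb hk => ⟨hx, hk, hb⟩⟩
  · intro h; exact h.elim

theorem isOpen_oI (N : ℕ) : IsOpen (oI N) := by
  rw [isOpen_iff']
  refine ⟨fun k => isOpen_lab (fun l => N ≤ k ∧ k + N ≤ l.2.2), ?_, ?_, ?_⟩
  · intro i n h
    have h' : N ≤ n := h
    exact ⟨n + N, fun x hx hb => ⟨h', hb⟩⟩
  · intro j m h
    have h' : N ≤ m := h
    refine ⟨m + N, fun x k hx hb hk => ⟨?_, ?_⟩⟩ <;> omega
  · intro _
    exact ⟨N, fun i n hn => hn, fun j m hm => hm, fun x n h1 h2 => ⟨h1, h2⟩⟩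

theorem isOpen_oD (l : Lab) (n : ℕ) (V : Set X) (hV : IsOpen V) : IsOpen (oD l n V) := by
  rw [isOpen_iff']
  refine ⟨?_, ?_, ?_, ?_⟩
  · intro k
    have : {x | blk x k ∈ oD l n V} = {x : X | k = n ∧ x.1 = l} ∩ V := by
      ext x
      simp only [blk_mem_oD, mem_inter_iff, mem_ofPred_eq]
      tauto
    rw [this]
    exact (isOpen_lab (fun l' => k = n ∧ l' = l)).inter hV
  · intro i n h; exact h.elim
  · intro i n h; exact h.elim
  · intro h; exact h.elim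

theorem isOpen_compl_oL (i : Bool) (n N : ℕ) : IsOpen (oL i n N)ᶜ := by
  rw [isOpen_iff']
  refine ⟨fun k => isOpen_lab (fun l => ¬ (k = n ∧ l.1 = i ∧ N ≤ l.2.2)), ?_, ?_, ?_⟩
  · intro i' n' h
    refine ⟨0, fun x hx _ => ?_⟩
    intro hc
    have hc' : n' = n ∧ ii x = i ∧ N ≤ bb x := hc
    exact h (show i' = i ∧ n' = n from ⟨hx ▸ hc'.2.1, hc'.1⟩)
  · intro j m _
    refine ⟨n + m + 1, fun x k _ hb hk hc => ?_⟩
    have hc' : k = n ∧ ii x = i ∧ N ≤ bb x := hc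
    omega
  · intro _
    refine ⟨n + 1, fun i' n' hn hc => ?_, fun j m _ hc => hc, fun x k hk _ hc => ?_⟩
    · have hc' : i' = i ∧ n' = n := hc
      omega
    · have hc' : k = n ∧ ii x = i ∧ N ≤ bb x := hc
      omega

theorem isOpen_compl_oR (j m N : ℕ) : IsOpen (oR j m N)ᶜ := by
  rw [isOpen_iff']
  refine ⟨fun k => isOpen_lab (fun l => ¬ (l.2.1 = j ∧ k + m = l.2.2 ∧ N ≤ l.2.2)), ?_, ?_, ?_⟩
  · intro i' n' _
    refine ⟨n' + m + 1, fun x _ hb hc => ?_⟩
    have hc' : jj x = j ∧ n' + m = bb x ∧ N ≤ bb x := hc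
    omega
  · intro j' m' h
    refine ⟨0, fun x k hx _ hk hc => ?_⟩
    have hc' : jj x = j ∧ k + m = bb x ∧ N ≤ bb x := hc
    exact h (show j' = j ∧ m' = m from ⟨hx ▸ hc'.1, by omega⟩)
  · intro _
    refine ⟨m + 1, fun i' n' _ hc => hc, fun j' m' hm hc => ?_, fun x k hk hb hc => ?_⟩
    · have hc' : j' = j ∧ m' = m := hc
      omega
    · have hc' : jj x = j ∧ k + m = bb x ∧ N ≤ bb x := hc
      omega

theorem isOpen_oC (N : ℕ) : IsOpen (oC N) := by
  rw [isOpen_iff']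
  refine ⟨fun k => isOpen_lab (fun l => k + N ≤ l.2.2), ?_, ?_, ?_⟩
  · intro i n _
    exact ⟨n + N, fun x hx hb => hb⟩
  · intro j m h
    have h' : N ≤ m := h
    refine ⟨0, fun x k hx hb hk => show k + N ≤ bb x by omega⟩
  · intro _
    exact ⟨N, fun i n hn => trivial, fun j m hm => hm, fun x n h1 h2 => h2⟩

theorem isOpen_compl_oC (N : ℕ) : IsOpen (oC N)ᶜ := by
  rw [isOpen_iff']
  refine ⟨fun k => isOpen_lab (fun l => ¬ (k + N ≤ l.2.2)), ?_, ?_, ?_⟩
  · intro i n h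
    exact absurd trivial h
  · intro j m h
    have h' : ¬ N ≤ m := h
    refine ⟨0, fun x k hx hb hk => show ¬ (k + N ≤ bb x) by omega⟩
  · intro h
    exact absurd trivial h

theorem isOpen_compl_oD (l : Lab) (n : ℕ) (V : Set X) (hV : IsClosed V) :
    IsOpen (oD l n V)ᶜ := by
  rw [isOpen_iff']
  refine ⟨?_, ?_, ?_, ?_⟩
  · intro k
    have : {x | blk x k ∈ (oD l n V)ᶜ} = {x : X | ¬ (k = n ∧ x.1 = l)} ∪ Vᶜ := by
      ext x
      simp only [mem_compl_iff, blk_mem_oD, mem_union, mem_ofPred_eq]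
      tauto
    rw [this]
    exact (isOpen_lab (fun l' => ¬ (k = n ∧ l' = l))).union hV.isOpen_compl
  · intro i n' _
    refine ⟨l.2.2 + 1, fun x _ hb hc => ?_⟩
    have hc' : n' = n ∧ x.1 = l ∧ x ∈ V := hc
    have : bb x = l.2.2 := by rw [← hc'.2.1]; rfl
    omega
  · intro j m _
    refine ⟨l.2.2 + 1, fun x k _ hb _ hc => ?_⟩
    have hc' : k = n ∧ x.1 = l ∧ x ∈ V := hc
    have : bb x = l.2.2 := by rw [← hc'.2.1]; rfl
    omega
  · intro _
    refine ⟨l.2.2 + 1, fun _ _ _ hc => hc, fun _ _ _ hc => hc, fun x k _ hb hc => ?_⟩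
    have hc' : k = n ∧ x.1 = l ∧ x ∈ V := hc
    have : bb x = l.2.2 := by rw [← hc'.2.1]; rfl
    omega

theorem isOpen_compl_oK (l : Lab) : IsOpen (oK l)ᶜ := by
  rw [isOpen_iff']
  refine ⟨fun k => isOpen_lab (fun l' => ¬ (l' = l ∧ k ≤ l.2.2)), ?_, ?_, ?_⟩
  · intro i n' _
    refine ⟨l.2.2 + 1, fun x _ hb hc => ?_⟩
    have hc' : x.1 = l ∧ n' ≤ l.2.2 := hc
    have : bb x = l.2.2 := by rw [← hc'.1]; rfl
    omega
  · intro j m _
    refine ⟨l.2.2 + 1, fun x k _ hb _ hc => ?_⟩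
    have hc' : x.1 = l ∧ k ≤ l.2.2 := hc
    have : bb x = l.2.2 := by rw [← hc'.1]; rfl
    omega
  · intro _
    refine ⟨l.2.2 + 1, fun _ _ _ hc => hc, fun _ _ _ hc => hc, fun x k _ hb hc => ?_⟩
    have hc' : x.1 = l ∧ k ≤ l.2.2 := hc
    have : bb x = l.2.2 := by rw [← hc'.1]; rfl
    omega

/-- index type of the countable clopen family -/
abbrev Idx := (Bool × ℕ) ⊕ (ℕ × ℕ) ⊕ ℕ ⊕ (Lab × ℕ) ⊕ (Lab × ℕ × ℕ)

/-- the countable clopen family -/
def fam : Idx → Set W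
  | Sum.inl (i, n) => oL i n 0
  | Sum.inr (Sum.inl (j, m)) => oR j m 0
  | Sum.inr (Sum.inr (Sum.inl N)) => oC N
  | Sum.inr (Sum.inr (Sum.inr (Sum.inl (l, n)))) => oD l n univ
  | Sum.inr (Sum.inr (Sum.inr (Sum.inr (l, n, k)))) => oD l n {x | x.2 k = true}

/-- abbreviations for indices -/
def iA (i : Bool) (n : ℕ) : Idx := Sum.inl (i, n)
def iB (j m : ℕ) : Idx := Sum.inr (Sum.inl (j, m))
def iC (N : ℕ) : Idx := Sum.inr (Sum.inr (Sum.inl N))
def iD (l : Lab) (n : ℕ) : Idx := Sum.inr (Sum.inr (Sum.inr (Sum.inl (l, n))))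
def iE (l : Lab) (n k : ℕ) : Idx := Sum.inr (Sum.inr (Sum.inr (Sum.inr (l, n, k))))

theorem isClopen_fam (k : Idx) : IsClopen (fam k) := by
  rcases k with ⟨i, n⟩ | ⟨j, m⟩ | N | ⟨l, n⟩ | ⟨l, n, k⟩
  · exact ⟨⟨isOpen_compl_oL i n 0⟩, isOpen_oL i n 0⟩
  · exact ⟨⟨isOpen_compl_oR j m 0⟩, isOpen_oR j m 0⟩
  · exact ⟨⟨isOpen_compl_oC N⟩, isOpen_oC N⟩
  · exact ⟨⟨isOpen_compl_oD l n univ isClosed_univ⟩, isOpen_oD l n univ isOpen_univ⟩
  · have hc : IsClopen {x : X | x.2 k = true} := by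
      have : Continuous (fun x : X => x.2 k) := by fun_prop
      exact (isClopen_discrete {true}).preimage this
    exact ⟨⟨isOpen_compl_oD l n _ hc.1⟩, isOpen_oD l n _ hc.2⟩

theorem fam_basis (z : W) (U : Set W) (hU : IsOpen U) (hz : z ∈ U) :
    ∃ I : Finset Idx, ∀ w, (∀ k ∈ I, (w ∈ fam k ↔ z ∈ fam k)) → w ∈ U := by
  classical
  rw [isOpen_iff'] at hU
  obtain ⟨u1, u2, u3, u4⟩ := hU
  rcases z with ⟨x, n⟩ | ⟨i, n⟩ | ⟨j, m⟩ | _
  · have h1 := u1 n
    have h2 : IsOpen {y : ℕ → Bool | blk (x.1, y) n ∈ U} := h1.preimage (Continuous.prodMk_right x.1)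
    rw [isOpen_pi_iff] at h2
    obtain ⟨J, u, hu, hsub⟩ := h2 x.2 hz
    refine ⟨{iD x.1 n} ∪ J.image (fun k => iE x.1 n k), ?_⟩
    intro w hw
    have hw1 : w ∈ oD x.1 n univ := by
      have := hw (iD x.1 n) (by simp)
      exact this.2 ⟨rfl, rfl, trivial⟩
    rcases w with ⟨x', n'⟩ | ⟨i, n'⟩ | ⟨j, m⟩ | _
    · obtain ⟨rfl, hl, -⟩ := hw1
      have key : x'.2 ∈ (J : Set ℕ).pi u := by
        intro k hk
        have h3 := hw (iE x.1 n' k) (by
          simp only [Finset.mem_union, Finset.mem_singleton, Finset.mem_image]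
          exact Or.inr ⟨k, hk, rfl⟩)
        have h4 : (n' = n' ∧ x'.1 = x.1 ∧ x'.2 k = true) ↔
          (n' = n' ∧ x.1 = x.1 ∧ x.2 k = true) := h3
        have h5 : x'.2 k = x.2 k := by
          simp only [hl, true_and] at h4
          exact Bool.eq_iff_iff.2 h4
        rw [h5]
        exact (hu k hk).2
      have := hsub key
      have e : x' = (x.1, x'.2) := Prod.ext hl rfl
      rw [e]
      exact this
    · exact hw1.elim
    · exact hw1.elim
    · exact hw1.elim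
  · obtain ⟨N, hN⟩ := u2 i n hz
    refine ⟨{iA i n, iC N}, ?_⟩
    intro w hw
    have hw1 : w ∈ oL i n 0 := (hw (iA i n) (by simp)).2 ⟨rfl, rfl⟩
    have hw2 : w ∈ oC N := (hw (iC N) (by simp)).2 trivial
    rcases w with ⟨x', n'⟩ | ⟨i', n'⟩ | ⟨j, m⟩ | _
    · obtain ⟨rfl, hl, -⟩ := hw1
      have h2 : n' + N ≤ bb x' := hw2
      exact hN x' hl (by omega)
    · obtain ⟨rfl, rfl⟩ := hw1
      exact hz
    · exact hw1.elim
    · exact hw1.elim
  · obtain ⟨N, hN⟩ := u3 j m hz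
    refine ⟨{iB j m} ∪ ((Finset.univ : Finset Bool) ×ˢ Finset.range N).image
      (fun p => iA p.1 p.2), ?_⟩
    intro w hw
    have hw1 : w ∈ oR j m 0 := (hw (iB j m) (by simp)).2 ⟨rfl, rfl⟩
    rcases w with ⟨x', n'⟩ | ⟨i', n'⟩ | ⟨j', m'⟩ | _
    · obtain ⟨rfl, hl, -⟩ := hw1
      have h2 : ¬ (n' < N) := by
        intro hlt
        have h3 := hw (iA (ii x') n') (by
          simp only [Finset.mem_union, Finset.mem_singleton, Finset.mem_image]
          exact Or.inr ⟨(ii x', n'), by simp [hlt], rfl⟩)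
        exact (h3.1 ⟨rfl, rfl, Nat.zero_le _⟩).elim
      exact hN x' n' rfl (by omega) hl
    · exact hw1.elim
    · obtain ⟨rfl, rfl⟩ := hw1
      exact hz
    · exact hw1.elim
  · obtain ⟨N, hN1, hN2, hN3⟩ := u4 hz
    refine ⟨{iC N} ∪ ((Finset.univ : Finset Bool) ×ˢ Finset.range N).image
      (fun p => iA p.1 p.2), ?_⟩
    intro w hw
    have hw2 : w ∈ oC N := (hw (iC N) (by simp)).2 trivial
    have hA : ∀ i n, n < N → w ∉ oL i n 0 := by
      intro i n hn hc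
      have h3 := hw (iA i n) (by
          simp only [Finset.mem_union, Finset.mem_singleton, Finset.mem_image]
          exact Or.inr ⟨(i, n), by simp [hn], rfl⟩)
      exact (h3.1 hc).elim
    rcases w with ⟨x', n'⟩ | ⟨i', n'⟩ | ⟨j', m'⟩ | _
    · have h2 : n' + N ≤ bb x' := hw2
      refine hN3 x' n' ?_ h2
      by_contra hlt
      exact hA (ii x') n' (by omega) ⟨rfl, rfl, Nat.zero_le _⟩
    · refine hN1 i' n' ?_
      by_contra hlt
      exact hA i' n' (by omega) ⟨rfl, rfl⟩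
    · exact hN2 j' m' hw2
    · exact hz

theorem fam_sep (z w : W) (h : ∀ k, z ∈ fam k ↔ w ∈ fam k) : z = w := by
  have hA : ∀ i n, z ∈ oL i n 0 ↔ w ∈ oL i n 0 := fun i n => h (iA i n)
  have hB : ∀ j m, z ∈ oR j m 0 ↔ w ∈ oR j m 0 := fun i n => h (iB i n)
  have hD : ∀ l n, z ∈ oD l n univ ↔ w ∈ oD l n univ := fun l n => h (iD l n)
  have hE : ∀ l n k, z ∈ oD l n {x | x.2 k = true} ↔ w ∈ oD l n {x | x.2 k = true} :=
    fun l n k => h (iE l n k)
  rcases z with ⟨x, n⟩ | ⟨i, n⟩ | ⟨j, m⟩ | _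
  · have h1 := (hD x.1 n).1 ⟨rfl, rfl, trivial⟩
    rcases w with ⟨x', n'⟩ | ⟨i', n'⟩ | ⟨j', m'⟩ | _
    · obtain ⟨rfl, hl, -⟩ := h1
      have : x.2 = x'.2 := by
        funext k
        have h4 : (n' = n' ∧ x.1 = x.1 ∧ x.2 k = true) ↔
          (n' = n' ∧ x'.1 = x.1 ∧ x'.2 k = true) := hE x.1 n' k
        simp only [hl, true_and] at h4
        exact Bool.eq_iff_iff.2 h4
      rw [show x = x' from Prod.ext hl.symm this]
    · exact h1.elim
    · exact h1.elim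
    · exact h1.elim
  · have h1 := (hA i n).1 ⟨rfl, rfl⟩
    rcases w with ⟨x', n'⟩ | ⟨i', n'⟩ | ⟨j', m'⟩ | _
    · exact ((hD x'.1 n').2 ⟨rfl, rfl, trivial⟩).elim
    · obtain ⟨rfl, rfl⟩ := h1; rfl
    · exact h1.elim
    · exact h1.elim
  · have h1 := (hB j m).1 ⟨rfl, rfl⟩
    rcases w with ⟨x', n'⟩ | ⟨i', n'⟩ | ⟨j', m'⟩ | _
    · exact ((hD x'.1 n').2 ⟨rfl, rfl, trivial⟩).elim
    · exact h1.elim
    · obtain ⟨rfl, rfl⟩ := h1; rfl
    · exact h1.elim
  · rcases w with ⟨x', n'⟩ | ⟨i', n'⟩ | ⟨j', m'⟩ | _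
    · exact ((hD x'.1 n').2 ⟨rfl, rfl, trivial⟩).elim
    · exact ((hA i' n').2 ⟨rfl, rfl⟩).elim
    · exact ((hB j' m').2 ⟨rfl, rfl⟩).elim
    · rfl

theorem W_embeds : ∃ e : W → ℝ, IsEmbedding e :=
  embeds_real fam isClopen_fam fam_basis fam_sep

end Pool.Agent.DimType
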