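import Mathlib
import Pool.Agent.DimType.Rigid
import Pool.Agent.DimType.Space
import Pool.Agent.DimType.Count

set_option autoImplicit false

open Set Topology Cardinal TopologicalSpace

namespace Pool.Agent.DimType

open W

/-- lines -/
abbrev Line := Bool ⊕ ℕ

/-- points on lines -/
def pt : Line → ℕ → W
  | Sum.inl i, n => L i n
  | Sum.inr j, m => R j m

/-- the sets under consideration -/
def A (E : Set X) (F : Set Line) : Set W := {z | match z with
  | blk x k => x ∈ E ∧ k ≤ bb x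
  | L i n => 1 ≤ n ∨ Sum.inl i ∈ F
  | R j m => 1 ≤ m ∨ Sum.inr j ∈ F
  | inf => True}

/-- the rigid set -/
structure Rig (E : Set X) : Prop where
  card : ∀ U : Set X, IsOpen U → U.Nonempty → #(U ∩ E : Set X) = 𝔠
  rig : ∀ U : Set X, IsOpen U → ∀ h : X → X, ContinuousOn h (U ∩ E) → InjOn h (U ∩ E) →
        MapsTo h (U ∩ E) E → ∀ x ∈ U ∩ E, h x = x

/-- embeddings as global functions -/
structure Emb (S T : Set W) (f : W → W) : Prop where
  maps : MapsTo f S T
  inj : InjOn f S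
  cont : ∀ z ∈ S, ∀ U, IsOpen U → f z ∈ U → ∃ V, IsOpen V ∧ z ∈ V ∧ ∀ w ∈ S, w ∈ V → f w ∈ U
  inv : ∀ z ∈ S, ∀ V, IsOpen V → z ∈ V → ∃ U, IsOpen U ∧ f z ∈ U ∧ ∀ w ∈ S, f w ∈ U → w ∈ V

theorem exists_emb {S T : Set W} (g : S → T) (hg : IsEmbedding g) :
    ∃ f, Emb S T f ∧ ∀ z : S, f z = g z := by
  classical
  let f : W → W := fun z => if h : z ∈ S then (g ⟨z, h⟩ : W) else z
  have hf : ∀ z : S, f z = g z := fun z => by
    simp only [f, dif_pos z.2]
  refine ⟨f, ⟨?_, ?_, ?_, ?_⟩, hf⟩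
  · intro z hz
    have := hf ⟨z, hz⟩
    rw [show f z = _ from this]
    exact (g ⟨z, hz⟩).2
  · intro z hz w hw e
    have h1 := hf ⟨z, hz⟩
    have h2 := hf ⟨w, hw⟩
    have e' : (g ⟨z, hz⟩ : W) = g ⟨w, hw⟩ := by rw [← h1, ← h2]; exact e
    exact Subtype.ext_iff.1 (hg.injective (Subtype.ext e'))
  · intro z hz U hU hfz
    have hc : Continuous (fun s : S => (g s : W)) := continuous_subtype_val.comp hg.continuous
    have ho : IsOpen {s : S | (g s : W) ∈ U} := hU.preimage hc
    obtain ⟨V, hV, hVe⟩ := isOpen_induced_iff.1 ho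
    refine ⟨V, hV, ?_, ?_⟩
    · have : (⟨z, hz⟩ : S) ∈ {s : S | (g s : W) ∈ U} := by
        show (g ⟨z, hz⟩ : W) ∈ U
        rw [← hf ⟨z, hz⟩]; exact hfz
      rw [← hVe] at this
      exact this
    · intro w hw hwV
      have : (⟨w, hw⟩ : S) ∈ Subtype.val ⁻¹' V := hwV
      rw [hVe] at this
      rw [show f w = _ from hf ⟨w, hw⟩]
      exact this
  · intro z hz V hV hzV
    have ho : IsOpen (Subtype.val ⁻¹' V : Set S) := hV.preimage continuous_subtype_val
    obtain ⟨U', hU', hUe⟩ := hg.isInducing.isOpen_iff.1 ho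
    obtain ⟨U, hU, hUU⟩ := isOpen_induced_iff.1 hU'
    refine ⟨U, hU, ?_, ?_⟩
    · have : (⟨z, hz⟩ : S) ∈ (Subtype.val ⁻¹' V : Set S) := hzV
      rw [← hUe, ← hUU] at this
      rw [show f z = _ from hf ⟨z, hz⟩]
      exact this
    · intro w hw hwU
      rw [show f w = _ from hf ⟨w, hw⟩] at hwU
      have : (⟨w, hw⟩ : S) ∈ g ⁻¹' U' := by
        rw [← hUU]; exact hwU
      rw [hUe] at this
      exact this

theorem Rig.exists_lab {E : Set X} (hE : Rig E) (l : Lab) : ∃ y ∈ E, y.1 = l := by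
  have h1 : IsOpen {x : X | x.1 = l} := isOpen_lab (fun l' => l' = l)
  have h2 := hE.card _ h1 ⟨(l, fun _ => true), rfl⟩
  have h3 : Nonempty ({x : X | x.1 = l} ∩ E : Set X) := by
    rw [← mk_ne_zero_iff, h2]
    exact continuum_ne_zero
  obtain ⟨⟨y, hy1, hy2⟩⟩ := h3
  exact ⟨y, hy2, hy1⟩

/-- nonblock points -/
def NB : Set W := {z | match z with
  | blk _ _ => False
  | _ => True}

theorem countable_NB : NB.Countable := by
  have : NB ⊆ range (fun p : Bool × ℕ => L p.1 p.2) ∪ range (fun p : ℕ × ℕ => R p.1 p.2) ∪ {inf} := by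
    intro z hz
    rcases z with ⟨x, n⟩ | ⟨i, n⟩ | ⟨j, m⟩ | _
    · exact hz.elim
    · exact Or.inl (Or.inl ⟨(i, n), rfl⟩)
    · exact Or.inl (Or.inr ⟨(j, m), rfl⟩)
    · exact Or.inr rfl
  exact (((countable_range _).union (countable_range _)).union (countable_singleton _)).mono this

theorem nhd_blk {V : Set W} (hV : IsOpen V) (n : ℕ) : IsOpen {y | blk y n ∈ V} :=
  ((isOpen_iff' V).1 hV).1 n

theorem nhd_L {V : Set W} (hV : IsOpen V) {i : Bool} {n : ℕ} (h : L i n ∈ V) :
    ∃ N, ∀ x, ii x = i → N ≤ bb x → blk x n ∈ V :=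
  ((isOpen_iff' V).1 hV).2.1 i n h

theorem nhd_R {V : Set W} (hV : IsOpen V) {j m : ℕ} (h : R j m ∈ V) :
    ∃ N, ∀ x k, jj x = j → N ≤ bb x → k + m = bb x → blk x k ∈ V :=
  ((isOpen_iff' V).1 hV).2.2.1 j m h

theorem nhd_inf {V : Set W} (hV : IsOpen V) (h : inf ∈ V) :
    ∃ N, (∀ i n, N ≤ n → L i n ∈ V) ∧ (∀ j m, N ≤ m → R j m ∈ V) ∧
    ∀ x n, N ≤ n → n + N ≤ bb x → blk x n ∈ V :=
  ((isOpen_iff' V).1 hV).2.2.2 h

section
variable {E : Set X} (hE : Rig E) {F G : Set Line} {f : W → W} (hf : Emb (A E F) (A E G) f)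
include hE hf

theorem step1 {x : X} (hx : x ∈ E) {n : ℕ} (hn : n ≤ bb x) {x' : X} {n' : ℕ}
    (h : f (blk x n) = blk x' n') : x' = x := by
  have hU := isOpen_oD x'.1 n' univ isOpen_univ
  obtain ⟨V, hV, hxV, hVU⟩ := hf.cont (blk x n) ⟨hx, hn⟩ _ hU (by rw [h]; exact ⟨rfl, rfl, trivial⟩)
  let O : Set X := {y | blk y n ∈ V} ∩ {y | y.1 = x.1}
  have hO : IsOpen O := (nhd_blk hV n).inter (isOpen_lab (fun l => l = x.1))
  let h' : X → X := fun y => match f (blk y n) with
    | blk y' _ => y'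
    | _ => y
  have hA : ∀ y ∈ O ∩ E, blk y n ∈ A E F := by
    rintro y ⟨⟨_, hy⟩, hyE⟩
    refine ⟨hyE, ?_⟩
    have : bb y = bb x := by
      have hy' : y.1 = x.1 := hy
      unfold bb; rw [hy']
    rw [this]; exact hn
  have key : ∀ y ∈ O ∩ E, f (blk y n) = blk (h' y) n' := by
    intro y hy
    have h1 := hVU (blk y n) (hA y hy) hy.1.1
    have h2 : h' y = match f (blk y n) with
      | blk y' _ => y'
      | _ => y := rfl
    revert h1 h2
    generalize f (blk y n) = w
    intro h1 h2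
    rcases w with ⟨a, b⟩ | _ | _ | _
    · rw [h2]
      obtain ⟨rfl, _⟩ := h1
      rfl
    · exact h1.elim
    · exact h1.elim
    · exact h1.elim
  have hxO : x ∈ O ∩ E := ⟨⟨hxV, rfl⟩, hx⟩
  have := hE.rig O hO h' ?_ ?_ ?_ x hxO
  · have h3 := key x hxO
    rw [h, this] at h3
    injection h3
  · rw [continuousOn_iff']
    intro T hT
    -- use pointwise open neighbourhoods
    have : ∀ y ∈ O ∩ E, h' y ∈ T → ∃ P : Set X, IsOpen P ∧ y ∈ P ∧ ∀ z ∈ P ∩ (O ∩ E), h' z ∈ T := by
      intro y hy hyT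
      have h1 : f (blk y n) ∈ oD (h' y).1 n' T := by
        rw [key y hy]; exact ⟨rfl, rfl, hyT⟩
      obtain ⟨V', hV', hyV', hVU'⟩ := hf.cont (blk y n) (hA y hy) _ (isOpen_oD _ n' T hT) h1
      refine ⟨{z | blk z n ∈ V'}, nhd_blk hV' n, hyV', ?_⟩
      rintro z ⟨hz1, hz2⟩
      have h2 := hVU' (blk z n) (hA z hz2) hz1
      rw [key z hz2] at h2
      exact h2.2.2
    choose! P hP using this
    refine ⟨⋃ y ∈ {y | y ∈ O ∩ E ∧ h' y ∈ T}, P y, ?_, ?_⟩
    · exact isOpen_biUnion fun y hy => (hP y hy.1 hy.2).1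
    · ext z
      constructor
      · rintro ⟨hz1, hz2⟩
        refine ⟨?_, hz2⟩
        simp only [mem_iUnion]
        exact ⟨z, ⟨hz2, hz1⟩, (hP z hz2 hz1).2.1⟩
      · rintro ⟨hz1, hz2⟩
        refine ⟨?_, hz2⟩
        simp only [mem_iUnion] at hz1
        obtain ⟨y, hy, hz3⟩ := hz1
        exact (hP y hy.1 hy.2).2.2 z ⟨hz3, hz2⟩
  · intro y hy z hz e
    have h1 := key y hy
    have h2 := key z hz
    rw [e, ← h2] at h1
    have h3 := hf.inj (hA y hy) (hA z hz) h1
    injection h3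
  · intro y hy
    have h1 := hf.maps (hA y hy)
    rw [key y hy] at h1
    exact h1.1

theorem blk_map {x : X} (hx : x ∈ E) {n : ℕ} (hn : n ≤ bb x) :
    ∃ n' ≤ bb x, f (blk x n) = blk x n' := by
  have hz : blk x n ∈ A E F := ⟨hx, hn⟩
  by_cases hNB : f (blk x n) ∈ NB
  · exfalso
    have hU : IsOpen (oK x.1)ᶜ := isOpen_compl_oK x.1
    have hfU : f (blk x n) ∈ (oK x.1)ᶜ := by
      revert hNB
      generalize f (blk x n) = w
      intro hNB hc
      rcases w with ⟨a, b⟩ | _ | _ | _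
      · exact hNB
      · exact hc
      · exact hc
      · exact hc
    obtain ⟨V, hV, hxV, hVU⟩ := hf.cont (blk x n) hz _ hU hfU
    let O : Set X := {y | blk y n ∈ V} ∩ {y | y.1 = x.1}
    have hO : IsOpen O := (nhd_blk hV n).inter (isOpen_lab (fun l => l = x.1))
    have hbb : ∀ y ∈ O ∩ E, bb y = bb x := by
      rintro y ⟨⟨_, hy⟩, hyE⟩
      have hy' : y.1 = x.1 := hy
      unfold bb; rw [hy']
    have hA : ∀ y ∈ O ∩ E, blk y n ∈ A E F := by
      intro y hy
      refine ⟨hy.2, ?_⟩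
      rw [hbb y hy]; exact hn
    have key : ∀ y ∈ O ∩ E, f (blk y n) ∈ NB := by
      intro y hy
      have h1 := hVU (blk y n) (hA y hy) hy.1.1
      have h2 : ∀ x' n', f (blk y n) = blk x' n' → x' = y := fun x' n' h =>
        step1 hE hf hy.2 (hA y hy).2 h
      have h3 := hf.maps (hA y hy)
      revert h1 h2 h3
      generalize f (blk y n) = w
      intro h1 h2 h3
      rcases w with ⟨a, b⟩ | _ | _ | _
      · exfalso
        apply h1
        have ha := h2 a b rfl
        subst ha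
        refine ⟨hy.1.2, ?_⟩
        have h4 : b ≤ bb a := h3.2
        rw [hbb a hy] at h4
        exact h4
      · trivial
      · trivial
      · trivial
    have hcard := hE.card O hO ⟨x, hxV, rfl⟩
    have hle : #(O ∩ E : Set X) ≤ #NB := by
      refine mk_le_of_injective (f := fun y => ⟨f (blk y.1 n), key y.1 y.2⟩) ?_
      intro y z e
      have := hf.inj (hA y.1 y.2) (hA z.1 z.2) (Subtype.ext_iff.1 e)
      injection this with h1
      exact Subtype.ext h1
    rw [hcard] at hle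
    have h2 : #NB ≤ ℵ₀ := countable_NB.le_aleph0
    exact absurd (lt_of_le_of_lt (hle.trans h2) aleph0_lt_continuum) (lt_irrefl _)
  · have h1 : ∀ x' n', f (blk x n) = blk x' n' → x' = x := fun x' n' h => step1 hE hf hx hn h
    have h3 := hf.maps hz
    revert hNB h1 h3
    generalize f (blk x n) = w
    intro hNB h1 h3
    rcases w with ⟨a, b⟩ | _ | _ | _
    · have ha := h1 a b rfl
      subst ha
      exact ⟨b, h3.2, rfl⟩
    · exact absurd trivial hNB
    · exact absurd trivial hNB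
    · exact absurd trivial hNB

theorem inf_map : f inf = inf := by
  have hz : inf ∈ A E F := trivial
  have hc := hf.cont inf hz
  have hb := @blk_map E hE F G f hf
  revert hc
  generalize hw : f inf = w
  intro hc
  rcases w with ⟨x, n⟩ | ⟨i, n⟩ | ⟨j, m⟩ | _
  · exfalso
    obtain ⟨V, hV, hxV, hVU⟩ := hc _ (isOpen_oD x.1 n univ isOpen_univ) ⟨rfl, rfl, trivial⟩
    obtain ⟨N, -, -, hN⟩ := nhd_inf hV hxV
    obtain ⟨y, hy, hyl⟩ := hE.exists_lab (true, 0, 2 * N + bb x + 1)
    have hby : bb y = 2 * N + bb x + 1 := by show y.1.2.2 = _; rw [hyl]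
    obtain ⟨k, _, hfk⟩ := hb hy (n := N) (by omega)
    have h1 := hVU (blk y N) ⟨hy, by omega⟩ (hN y N le_rfl (by omega))
    rw [hfk] at h1
    have h2 : bb y = bb x := by
      have := h1.2.1
      unfold bb; rw [this]
    omega
  · exfalso
    obtain ⟨V, hV, hxV, hVU⟩ := hc _ (isOpen_oL i n 0) ⟨rfl, rfl⟩
    obtain ⟨N, -, -, hN⟩ := nhd_inf hV hxV
    obtain ⟨y, hy, hyl⟩ := hE.exists_lab (!i, 0, 2 * N)
    have hby : bb y = 2 * N := by unfold bb; rw [hyl]
    obtain ⟨k, _, hfk⟩ := hb hy (n := N) (by omega)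
    have h1 := hVU (blk y N) ⟨hy, by omega⟩ (hN y N le_rfl (by omega))
    rw [hfk] at h1
    have h2 : ii y = i := h1.2.1
    have h3 : ii y = !i := by unfold ii; rw [hyl]
    rw [h2] at h3
    cases i <;> simp at h3
  · exfalso
    obtain ⟨V, hV, hxV, hVU⟩ := hc _ (isOpen_oR j m 0) ⟨rfl, rfl⟩
    obtain ⟨N, -, -, hN⟩ := nhd_inf hV hxV
    obtain ⟨y, hy, hyl⟩ := hE.exists_lab (true, j + 1, 2 * N)
    have hby : bb y = 2 * N := by unfold bb; rw [hyl]
    obtain ⟨k, _, hfk⟩ := hb hy (n := N) (by omega)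
    have h1 := hVU (blk y N) ⟨hy, by omega⟩ (hN y N le_rfl (by omega))
    rw [hfk] at h1
    have h2 : jj y = j := h1.1
    have h3 : jj y = j + 1 := by unfold jj; rw [hyl]
    omega
  · rfl

theorem L_map {i : Bool} {n : ℕ} (hz : L i n ∈ A E F) : ∃ n', f (L i n) = L i n' := by
  have hc := hf.cont (L i n) hz
  have hb := @blk_map E hE F G f hf
  have hinf : f (L i n) ≠ inf := by
    intro h
    have h1 := hf.inj hz (show inf ∈ A E F from trivial) (by rw [h, inf_map hE hf])
    cases h1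
  revert hc hinf
  generalize f (L i n) = w
  intro hc hinf
  rcases w with ⟨x, n'⟩ | ⟨i', n'⟩ | ⟨j, m⟩ | _
  · exfalso
    obtain ⟨V, hV, hxV, hVU⟩ := hc _ (isOpen_oD x.1 n' univ isOpen_univ) ⟨rfl, rfl, trivial⟩
    obtain ⟨N, hN⟩ := nhd_L hV hxV
    obtain ⟨y, hy, hyl⟩ := hE.exists_lab (i, 0, N + n + bb x + 1)
    have hby : bb y = N + n + bb x + 1 := by show y.1.2.2 = _; rw [hyl]
    have hiy : ii y = i := by unfold ii; rw [hyl]
    obtain ⟨k, _, hfk⟩ := hb hy (n := n) (by omega)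
    have h1 := hVU (blk y n) ⟨hy, by omega⟩ (hN y hiy (by omega))
    rw [hfk] at h1
    have h2 : bb y = bb x := by
      have := h1.2.1
      unfold bb; rw [this]
    omega
  · by_cases he : i' = i
    · exact ⟨n', by rw [he]⟩
    · exfalso
      obtain ⟨V, hV, hxV, hVU⟩ := hc _ (isOpen_oL i' n' 0) ⟨rfl, rfl⟩
      obtain ⟨N, hN⟩ := nhd_L hV hxV
      obtain ⟨y, hy, hyl⟩ := hE.exists_lab (i, 0, N + n)
      have hby : bb y = N + n := by unfold bb; rw [hyl]
      have hiy : ii y = i := by unfold ii; rw [hyl]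
      obtain ⟨k, _, hfk⟩ := hb hy (n := n) (by omega)
      have h1 := hVU (blk y n) ⟨hy, by omega⟩ (hN y hiy (by omega))
      rw [hfk] at h1
      exact he (h1.2.1.symm.trans hiy)
  · exfalso
    obtain ⟨V, hV, hxV, hVU⟩ := hc _ (isOpen_oR j m 0) ⟨rfl, rfl⟩
    obtain ⟨N, hN⟩ := nhd_L hV hxV
    obtain ⟨y, hy, hyl⟩ := hE.exists_lab (i, j + 1, N + n)
    have hby : bb y = N + n := by unfold bb; rw [hyl]
    have hiy : ii y = i := by unfold ii; rw [hyl]
    have hjy : jj y = j + 1 := by unfold jj; rw [hyl]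
    obtain ⟨k, _, hfk⟩ := hb hy (n := n) (by omega)
    have h1 := hVU (blk y n) ⟨hy, by omega⟩ (hN y hiy (by omega))
    rw [hfk] at h1
    have h2 : jj y = j := h1.1
    omega
  · exact absurd rfl hinf

theorem R_map {j m : ℕ} (hz : R j m ∈ A E F) : ∃ m', f (R j m) = R j m' := by
  have hc := hf.cont (R j m) hz
  have hb := @blk_map E hE F G f hf
  have hinf : f (R j m) ≠ inf := by
    intro h
    have h1 := hf.inj hz (show inf ∈ A E F from trivial) (by rw [h, inf_map hE hf])
    cases h1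
  revert hc hinf
  generalize f (R j m) = w
  intro hc hinf
  rcases w with ⟨x, n'⟩ | ⟨i', n'⟩ | ⟨j', m'⟩ | _
  · exfalso
    obtain ⟨V, hV, hxV, hVU⟩ := hc _ (isOpen_oD x.1 n' univ isOpen_univ) ⟨rfl, rfl, trivial⟩
    obtain ⟨N, hN⟩ := nhd_R hV hxV
    obtain ⟨y, hy, hyl⟩ := hE.exists_lab (true, j, N + m + bb x + 1)
    have hby : bb y = N + m + bb x + 1 := by show y.1.2.2 = _; rw [hyl]
    have hjy : jj y = j := by unfold jj; rw [hyl]
    obtain ⟨k, _, hfk⟩ := hb hy (n := N + bb x + 1) (by omega)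
    have h1 := hVU (blk y (N + bb x + 1)) ⟨hy, by omega⟩ (hN y _ hjy (by omega) (by omega))
    rw [hfk] at h1
    have h2 : bb y = bb x := by
      have := h1.2.1
      unfold bb; rw [this]
    omega
  · exfalso
    obtain ⟨V, hV, hxV, hVU⟩ := hc _ (isOpen_oL i' n' 0) ⟨rfl, rfl⟩
    obtain ⟨N, hN⟩ := nhd_R hV hxV
    obtain ⟨y, hy, hyl⟩ := hE.exists_lab (!i', j, N + m)
    have hby : bb y = N + m := by unfold bb; rw [hyl]
    have hiy : ii y = !i' := by unfold ii; rw [hyl]
    have hjy : jj y = j := by unfold jj; rw [hyl]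
    obtain ⟨k, _, hfk⟩ := hb hy (n := N) (by omega)
    have h1 := hVU (blk y N) ⟨hy, by omega⟩ (hN y _ hjy (by omega) (by omega))
    rw [hfk] at h1
    have h2 : ii y = i' := h1.2.1
    rw [h2] at hiy
    cases i' <;> simp at hiy
  · by_cases he : j' = j
    · exact ⟨m', by rw [he]⟩
    · exfalso
      obtain ⟨V, hV, hxV, hVU⟩ := hc _ (isOpen_oR j' m' 0) ⟨rfl, rfl⟩
      obtain ⟨N, hN⟩ := nhd_R hV hxV
      obtain ⟨y, hy, hyl⟩ := hE.exists_lab (true, j, N + m)
      have hby : bb y = N + m := by unfold bb; rw [hyl]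
      have hjy : jj y = j := by unfold jj; rw [hyl]
      obtain ⟨k, _, hfk⟩ := hb hy (n := N) (by omega)
      have h1 := hVU (blk y N) ⟨hy, by omega⟩ (hN y _ hjy (by omega) (by omega))
      rw [hfk] at h1
      have h2 : jj y = j' := h1.1
      exact he (h2.symm.trans hjy)
  · exact absurd rfl hinf

theorem line_map {l : Line} {n : ℕ} (hz : pt l n ∈ A E F) : ∃ n', f (pt l n) = pt l n' := by
  rcases l with i | j
  · exact L_map hE hf hz
  · exact R_map hE hf hz

theorem blk_surj {x : X} (hx : x ∈ E) {k : ℕ} (hk : k ≤ bb x) :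
    ∃ n ≤ bb x, f (blk x n) = blk x k := by
  have h1 : ∀ n : Fin (bb x + 1), ∃ n' : Fin (bb x + 1), f (blk x n) = blk x n' := by
    intro n
    obtain ⟨n', hn', h⟩ := blk_map hE hf hx (n := n) (by omega)
    exact ⟨⟨n', by omega⟩, h⟩
  choose g hg using h1
  have hinj : Function.Injective g := by
    intro a b e
    have h2 : f (blk x a) = f (blk x b) := by rw [hg a, hg b, e]
    have h3 := hf.inj (show blk x (a : ℕ) ∈ A E F from ⟨hx, by omega⟩)
      (show blk x (b : ℕ) ∈ A E F from ⟨hx, by omega⟩) h2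
    injection h3 with _ h4
    exact Fin.ext h4
  obtain ⟨n, hn⟩ := (Finite.injective_iff_surjective.1 hinj) ⟨k, by omega⟩
  refine ⟨n, by omega, ?_⟩
  rw [hg n, hn]

end

/-- missing indices on a line -/
def Mis (f : W → W) (l : Line) : Set ℕ := {k | ∀ n, 1 ≤ n → f (pt l n) ≠ pt l k}

theorem pt_mem {E : Set X} {F : Set Line} {l : Line} {n : ℕ} :
    pt l n ∈ A E F ↔ (1 ≤ n ∨ l ∈ F) := by
  rcases l with i | j <;> exact Iff.rfl

theorem pt_inj {l : Line} {n m : ℕ} (h : pt l n = pt l m) : n = m := by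
  rcases l with i | j
  · have h' : L i n = L i m := h
    injection h'
  · have h' : R j n = R j m := h
    injection h'

theorem count {E : Set X} (hE : Rig E) {F G : Set Line} {f : W → W}
    (hf : Emb (A E F) (A E G) f) (i : Bool) (j : ℕ) :
    (Mis f (Sum.inl i)).encard + (Mis f (Sum.inr j)).encard = 2 := by
  classical
  have hLu : ∀ n, ∃ k, 1 ≤ n → f (L i n) = L i k := by
    intro n
    by_cases hn : 1 ≤ n
    · obtain ⟨k, hk⟩ := L_map hE hf (i := i) (n := n) (Or.inl hn)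
      exact ⟨k, fun _ => hk⟩
    · exact ⟨0, fun h => absurd h hn⟩
  have hRv : ∀ m, ∃ k, 1 ≤ m → f (R j m) = R j k := by
    intro n
    by_cases hn : 1 ≤ n
    · obtain ⟨k, hk⟩ := R_map hE hf (j := j) (m := n) (Or.inl hn)
      exact ⟨k, fun _ => hk⟩
    · exact ⟨0, fun h => absurd h hn⟩
  choose u hu using hLu
  choose v hv using hRv
  have hY : ∀ b, ∃ y ∈ E, y.1 = (i, j, b) := fun b => hE.exists_lab (i, j, b)
  choose y hyE hyl using hY
  have hbb : ∀ b, bb (y b) = b := fun b => by unfold bb; rw [hyl b]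
  have hii : ∀ b, ii (y b) = i := fun b => by unfold ii; rw [hyl b]
  have hjj : ∀ b, jj (y b) = j := fun b => by unfold jj; rw [hyl b]
  have hgex : ∀ b n, ∃ k, n ≤ b → k ≤ b ∧ f (blk (y b) n) = blk (y b) k := by
    intro b n
    by_cases hn : n ≤ b
    · obtain ⟨k, hk1, hk2⟩ := blk_map hE hf (hyE b) (n := n) (by rw [hbb]; exact hn)
      exact ⟨k, fun _ => ⟨by rw [hbb] at hk1; exact hk1, hk2⟩⟩
    · exact ⟨0, fun h => absurd h hn⟩
  choose g hg using hgex
  have hAb : ∀ b n, n ≤ b → blk (y b) n ∈ A E F := fun b n hn => ⟨hyE b, by rw [hbb]; exact hn⟩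
  have hinf : f inf = inf := inf_map hE hf
  have hP : Perm g u v := by
    refine ⟨fun b n hn => (hg b n hn).1, ?_, ?_, ?_, ?_, ?_, ?_⟩
    · intro b n n' hn hn' e
      have h1 : f (blk (y b) n) = f (blk (y b) n') := by
        rw [(hg b n hn).2, (hg b n' hn').2, e]
      have h2 := hf.inj (hAb b n hn) (hAb b n' hn') h1
      injection h2
    · intro b k hk
      obtain ⟨n, hn, h⟩ := blk_surj hE hf (hyE b) (k := k) (by rw [hbb]; exact hk)
      rw [hbb] at hn
      refine ⟨n, hn, ?_⟩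
      have h1 := (hg b n hn).2
      rw [h] at h1
      injection h1 with _ h2
      exact h2.symm
    · intro n hn
      have hz : L i n ∈ A E F := Or.inl hn
      obtain ⟨V, hV, hxV, hVU⟩ := hf.cont (L i n) hz _ (isOpen_oL i (u n) 0)
        (by rw [hu n hn]; exact ⟨rfl, rfl⟩)
      obtain ⟨N, hN⟩ := nhd_L hV hxV
      filter_upwards [Filter.eventually_ge_atTop N, Filter.eventually_ge_atTop n] with b hb hnb
      have h1 := hVU _ (hAb b n hnb) (hN (y b) (hii b) (by rw [hbb]; exact hb))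
      rw [(hg b n hnb).2] at h1
      exact h1.1
    · intro m hm
      have hz : R j m ∈ A E F := Or.inl hm
      obtain ⟨V, hV, hxV, hVU⟩ := hf.cont (R j m) hz _ (isOpen_oR j (v m) 0)
        (by rw [hv m hm]; exact ⟨rfl, rfl⟩)
      obtain ⟨N, hN⟩ := nhd_R hV hxV
      filter_upwards [Filter.eventually_ge_atTop N, Filter.eventually_ge_atTop m] with b hb hmb
      have h1 := hVU _ (hAb b (b - m) (Nat.sub_le _ _))
        (hN (y b) (b - m) (hjj b) (by rw [hbb]; exact hb) (by rw [hbb]; omega))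
      rw [(hg b (b - m) (Nat.sub_le _ _)).2] at h1
      have h2 := h1.2.1
      rw [hbb] at h2
      exact h2
    · intro K
      obtain ⟨V, hV, hxV, hVU⟩ := hf.cont inf trivial _ (isOpen_oI K)
        (by rw [hinf]; exact trivial)
      obtain ⟨N, -, -, hN⟩ := nhd_inf hV hxV
      refine ⟨N, fun b n h1 h2 => ?_⟩
      have hnb : n ≤ b := by omega
      have h3 := hVU _ (hAb b n hnb) (hN (y b) n h1 (by rw [hbb]; exact h2))
      rw [(hg b n hnb).2] at h3
      have h4 : K ≤ g b n ∧ g b n + K ≤ bb (y b) := h3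
      rw [hbb] at h4
      exact h4
    · intro K
      obtain ⟨U, hU, hfU, hUV⟩ := hf.inv inf trivial _ (isOpen_oI K) trivial
      rw [hinf] at hfU
      obtain ⟨N, -, -, hN⟩ := nhd_inf hU hfU
      refine ⟨N, fun b n hnb h1 h2 => ?_⟩
      have h3 := hUV _ (hAb b n hnb) (by
        rw [(hg b n hnb).2]
        exact hN (y b) _ h1 (by rw [hbb]; exact h2))
      have h4 : K ≤ n ∧ n + K ≤ bb (y b) := h3
      rw [hbb] at h4
      exact h4
  have hc := count_two hP
  have e1 : Mis f (Sum.inl i) = {k | ∀ n, 1 ≤ n → u n ≠ k} := by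
    ext k
    constructor
    · intro h n hn e
      exact h n hn (by show f (L i n) = L i k; rw [hu n hn, e])
    · intro h n hn e
      have e' : f (L i n) = L i k := e
      rw [hu n hn] at e'
      injection e' with _ e''
      exact h n hn e''
  have e2 : Mis f (Sum.inr j) = {k | ∀ n, 1 ≤ n → v n ≠ k} := by
    ext k
    constructor
    · intro h n hn e
      exact h n hn (by show f (R j n) = R j k; rw [hv n hn, e])
    · intro h n hn e
      have e' : f (R j n) = R j k := e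
      rw [hv n hn] at e'
      injection e' with _ e''
      exact h n hn e''
  rw [e1, e2]
  exact hc

section
variable {E : Set X} (hE : Rig E) {F G : Set Line} {f : W → W} (hf : Emb (A E F) (A E G) f)
include hE hf

theorem zero_mis {l : Line} (hl : l ∉ G) : 0 ∈ Mis f l := by
  intro n hn e
  have h1 := hf.maps (pt_mem.2 (Or.inl hn) : pt l n ∈ A E F)
  rw [e, pt_mem] at h1
  rcases h1 with h1 | h1
  · omega
  · exact hl h1

theorem im_mis {l : Line} (hl : l ∈ F) : ∃ k ∈ Mis f l, f (pt l 0) = pt l k := by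
  have hz : pt l 0 ∈ A E F := pt_mem.2 (Or.inr hl)
  obtain ⟨k, hk⟩ := line_map hE hf hz
  refine ⟨k, ?_, hk⟩
  intro n hn e
  have h1 := hf.inj (pt_mem.2 (Or.inl hn) : pt l n ∈ A E F) hz (by rw [e, hk])
  have := pt_inj h1
  omega

theorem mis_ne {l : Line} (h : l ∉ G ∨ l ∈ F) : 1 ≤ (Mis f l).encard := by
  rw [one_le_encard_iff_nonempty]
  rcases h with h | h
  · exact ⟨0, zero_mis hE hf h⟩
  · obtain ⟨k, hk, _⟩ := im_mis hE hf h
    exact ⟨k, hk⟩

end

/-- no embedding of the larger set in the smaller one -/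
theorem no_emb {E : Set X} (hE : Rig E) {F : Set Line} {y : Line} (hy : y ∉ F) {f : W → W}
    (hf : Emb (A E (insert y F)) (A E F) f) : False := by
  have h0 : 0 ∈ Mis f y := zero_mis hE hf hy
  obtain ⟨k, hk, hfk⟩ := im_mis hE hf (mem_insert y F)
  have hk0 : k ≠ 0 := by
    rintro rfl
    have h1 := hf.maps (pt_mem.2 (Or.inr (mem_insert y F)) : pt y 0 ∈ A E (insert y F))
    rw [hfk, pt_mem] at h1
    rcases h1 with h1 | h1
    · omega
    · exact hy h1
  have h2 : 2 ≤ (Mis f y).encard := by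
    have h3 : ({0, k} : Set ℕ) ⊆ Mis f y := by
      rintro z (rfl | hz)
      · exact h0
      · rw [mem_singleton_iff] at hz; subst hz; exact hk
    calc (2 : ℕ∞) = ({0, k} : Set ℕ).encard := (encard_pair hk0.symm).symm
      _ ≤ _ := encard_le_encard h3
  have h4 : ∀ l, 1 ≤ (Mis f l).encard := by
    intro l
    apply mis_ne hE hf
    by_cases hl : l ∈ F
    · exact Or.inr (mem_insert_of_mem _ hl)
    · exact Or.inl hl
  rcases y with i | j
  · have hc := count hE hf i 0
    have h5 := h4 (Sum.inr 0)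
    have : (2 : ℕ∞) + 1 ≤ 2 := by
      calc (2 : ℕ∞) + 1 ≤ (Mis f (Sum.inl i)).encard + (Mis f (Sum.inr 0)).encard :=
          add_le_add h2 h5
        _ = 2 := hc
    exact absurd this (by decide)
  · have hc := count hE hf true j
    have h5 := h4 (Sum.inl true)
    have : (1 : ℕ∞) + 2 ≤ 2 := by
      calc (1 : ℕ∞) + 2 ≤ (Mis f (Sum.inl true)).encard + (Mis f (Sum.inr j)).encard :=
          add_le_add h5 h2
        _ = 2 := hc
    exact absurd this (by decide)

theorem eq_one_of {a b : ℕ∞} (h : a + b = 2) (ha : 1 ≤ a) (hb : 1 ≤ b) : a = 1 ∧ b = 1 := by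
  have ha' : a ≠ ⊤ := by rintro rfl; simp at h
  have hb' : b ≠ ⊤ := by rintro rfl; simp at h
  lift a to ℕ using ha'
  lift b to ℕ using hb'
  norm_cast at *
  omega

theorem eq_one_of' {a b : ℕ∞} (h : a + b = 2) (ha : a = 1) : b = 1 := by
  have hb' : b ≠ ⊤ := by rintro rfl; simp at h
  subst ha
  lift b to ℕ using hb'
  norm_cast at *
  omega

/-- the complement of the image has at most one point -/
theorem sub_one {E : Set X} (hE : Rig E) {F : Set Line} {y : Line} {f : W → W}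
    (hf : Emb (A E F) (A E (insert y F)) f) {w₁ w₂ : W}
    (h₁ : w₁ ∈ A E (insert y F)) (h₂ : w₂ ∈ A E (insert y F))
    (n₁ : w₁ ∉ f '' (A E F)) (n₂ : w₂ ∉ f '' (A E F)) : w₁ = w₂ := by
  have hM : ∀ l, l ≠ y → 1 ≤ (Mis f l).encard := by
    intro l hl
    apply mis_ne hE hf
    by_cases h : l ∈ F
    · exact Or.inr h
    · refine Or.inl ?_
      rintro (h' | h')
      · exact hl h'
      · exact h h'
  have hone : ∀ l, (Mis f l).encard = 1 := by
    have hc := count hE hf
    rcases y with i | j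
    · have e1 : ∀ j, (Mis f (Sum.inr j)).encard = 1 := by
        intro j
        refine (eq_one_of (hc (!i) j) (hM _ ?_) (hM _ ?_)).2
        · intro e
          have : (!i) = i := Sum.inl.inj e
          cases i <;> simp at this
        · exact Sum.inr_ne_inl
      intro l
      rcases l with i' | j'
      · exact eq_one_of' (by rw [add_comm]; exact hc i' 0) (e1 0)
      · exact e1 j'
    · have e1 : ∀ i, (Mis f (Sum.inl i)).encard = 1 := by
        intro i
        refine (eq_one_of (hc i (j + 1)) (hM _ ?_) (hM _ ?_)).1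
        · exact Sum.inl_ne_inr
        · intro e
          have : j + 1 = j := Sum.inr.inj e
          omega
      intro l
      rcases l with i' | j'
      · exact e1 i'
      · exact eq_one_of' (hc true j') (e1 true)
  have key : ∀ w ∈ A E (insert y F), w ∉ f '' (A E F) → ∃ k ∈ Mis f y, w = pt y k := by
    intro w hw hn
    have hline : ∀ l k, w = pt l k → ∃ k ∈ Mis f y, w = pt y k := by
      intro l k e
      have hk : k ∈ Mis f l := by
        intro n hn' e'
        exact hn ⟨pt l n, pt_mem.2 (Or.inl hn'), by rw [e', e]⟩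
      by_cases hly : l = y
      · subst hly; exact ⟨k, hk, e⟩
      · exfalso
        obtain ⟨a, ha⟩ := encard_eq_one.1 (hone l)
        rw [ha, mem_singleton_iff] at hk
        by_cases hlF : l ∈ F
        · obtain ⟨s, hs, hfs⟩ := im_mis hE hf hlF
          rw [ha, mem_singleton_iff] at hs
          exact hn ⟨pt l 0, pt_mem.2 (Or.inr hlF), by rw [hfs, e, hs, hk]⟩
        · have hlG : l ∉ insert y F := by
            rintro (h' | h')
            · exact hly h'
            · exact hlF h'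
          have h0 := zero_mis hE hf hlG
          rw [ha, mem_singleton_iff] at h0
          rw [e, pt_mem] at hw
          rcases hw with hw | hw
          · omega
          · exact hlG hw
    rcases w with ⟨x, k⟩ | ⟨i, k⟩ | ⟨j, k⟩ | _
    · exfalso
      obtain ⟨n, hn1, hn2⟩ := blk_surj hE hf hw.1 hw.2
      exact hn ⟨blk x n, ⟨hw.1, hn1⟩, hn2⟩
    · exact hline (Sum.inl i) k rfl
    · exact hline (Sum.inr j) k rfl
    · exfalso
      exact hn ⟨inf, trivial, inf_map hE hf⟩
  obtain ⟨k₁, hk₁, e₁⟩ := key w₁ h₁ n₁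
  obtain ⟨k₂, hk₂, e₂⟩ := key w₂ h₂ n₂
  obtain ⟨a, ha⟩ := encard_eq_one.1 (hone y)
  rw [ha, mem_singleton_iff] at hk₁ hk₂
  rw [e₁, e₂, hk₁, hk₂]

end Pool.Agent.DimType
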