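import Mathlib
import Pool.Agent.DimType.Main

set_option autoImplicit false

open Set Topology

namespace Pool.Agent.DimType

open W

/-- the cyclic shift -/
def phi : W → W
  | blk x n => if n + 1 ≤ bb x then blk x (n + 1) else blk x 0
  | L i n => L i (n + 1)
  | R j m => R j (m - 1)
  | inf => inf

/-- the inverse shift -/
def psi : W → W
  | blk x n => if n = 0 then blk x (bb x) else blk x (n - 1)
  | L i n => L i (n - 1)
  | R j m => R j (m + 1)
  | inf => inf

theorem continuous_restrict' {S T : Set W} {f : W → W} (hm : MapsTo f S T)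
    (h : ∀ z ∈ S, ∀ U, IsOpen U → f z ∈ U → ∃ V, IsOpen V ∧ z ∈ V ∧ ∀ w ∈ S, w ∈ V → f w ∈ U) :
    Continuous (hm.restrict f S T) := by
  rw [continuous_iff_continuousAt]
  rintro ⟨z, hz⟩
  rw [ContinuousAt, tendsto_nhds]
  intro U' hU' hzU'
  obtain ⟨U, hU, rfl⟩ := isOpen_induced_iff.1 hU'
  obtain ⟨V, hV, hzV, hVU⟩ := h z hz U hU hzU'
  have : (Subtype.val ⁻¹' V : Set S) ∈ 𝓝 (⟨z, hz⟩ : S) :=
    (hV.preimage continuous_subtype_val).mem_nhds hzV
  filter_upwards [this]
  rintro ⟨w, hw⟩ hwV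
  exact hVU w hw hwV

variable (E : Set X)

/-- all left lines -/
abbrev FL : Set Line := range Sum.inl
/-- all right lines -/
abbrev FR : Set Line := range Sum.inr

theorem maps_phi : MapsTo phi (A E FL) (A E FR) := by
  intro z hz
  rcases z with ⟨x, n⟩ | ⟨i, n⟩ | ⟨j, m⟩ | _
  · obtain ⟨h1, h2⟩ := hz
    show (if n + 1 ≤ bb x then blk x (n + 1) else blk x 0) ∈ A E FR
    split_ifs with h
    · exact ⟨h1, h⟩
    · exact ⟨h1, Nat.zero_le _⟩
  · exact Or.inl (Nat.le_add_left 1 n)
  · exact Or.inr ⟨j, rfl⟩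
  · trivial

theorem maps_psi : MapsTo psi (A E FR) (A E FL) := by
  intro z hz
  rcases z with ⟨x, n⟩ | ⟨i, n⟩ | ⟨j, m⟩ | _
  · obtain ⟨h1, h2⟩ := hz
    show (if n = 0 then blk x (bb x) else blk x (n - 1)) ∈ A E FL
    split_ifs with h
    · exact ⟨h1, le_rfl⟩
    · exact ⟨h1, by omega⟩
  · exact Or.inr ⟨i, rfl⟩
  · exact Or.inl (Nat.le_add_left 1 m)
  · trivial

theorem bb_eq {x y : X} (h : y.1 = x.1) : bb y = bb x := by unfold bb; rw [h]

theorem cont_phi : Continuous ((maps_phi E).restrict phi (A E FL) (A E FR)) := by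
  apply continuous_restrict'
  intro z hz U hU hzU
  rcases z with ⟨x, n⟩ | ⟨i, n⟩ | ⟨j, m⟩ | _
  · by_cases h : n + 1 ≤ bb x
    · have hzU' : blk x (n + 1) ∈ U := by
        have : phi (blk x n) = blk x (n + 1) := if_pos h
        rwa [this] at hzU
      refine ⟨oD x.1 n {y | blk y (n + 1) ∈ U}, isOpen_oD _ _ _ (nhd_blk hU _),
        ⟨rfl, rfl, hzU'⟩, ?_⟩
      intro w _ hw
      rcases w with ⟨y, k⟩ | _ | _ | _
      · obtain ⟨rfl, h2, h3⟩ := hw
        have : phi (blk y k) = blk y (k + 1) := if_pos (by rw [bb_eq h2]; exact h)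
        rw [this]; exact h3
      · exact hw.elim
      · exact hw.elim
      · exact hw.elim
    · have hzU' : blk x 0 ∈ U := by
        have : phi (blk x n) = blk x 0 := if_neg h
        rwa [this] at hzU
      refine ⟨oD x.1 n {y | blk y 0 ∈ U}, isOpen_oD _ _ _ (nhd_blk hU _),
        ⟨rfl, rfl, hzU'⟩, ?_⟩
      intro w _ hw
      rcases w with ⟨y, k⟩ | _ | _ | _
      · obtain ⟨rfl, h2, h3⟩ := hw
        have : phi (blk y k) = blk y 0 := if_neg (by rw [bb_eq h2]; exact h)
        rw [this]; exact h3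
      · exact hw.elim
      · exact hw.elim
      · exact hw.elim
  · obtain ⟨N, hN⟩ := nhd_L hU (show L i (n + 1) ∈ U from hzU)
    refine ⟨oL i n (N + n + 1), isOpen_oL _ _ _, ⟨rfl, rfl⟩, ?_⟩
    intro w _ hw
    rcases w with ⟨y, k⟩ | _ | _ | _
    · obtain ⟨rfl, h2, h3⟩ := hw
      have : phi (blk y k) = blk y (k + 1) := if_pos (by omega)
      rw [this]; exact hN y h2 (by omega)
    · obtain ⟨rfl, rfl⟩ := hw
      exact hzU
    · exact hw.elim
    · exact hw.elim
  · have hm : 1 ≤ m := by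
      rcases hz with h | ⟨_, h⟩
      · exact h
      · cases h
    obtain ⟨N, hN⟩ := nhd_R hU (show R j (m - 1) ∈ U from hzU)
    refine ⟨oR j m N, isOpen_oR _ _ _, ⟨rfl, rfl⟩, ?_⟩
    intro w _ hw
    rcases w with ⟨y, k⟩ | _ | _ | _
    · obtain ⟨h1, h2, h3⟩ := hw
      have : phi (blk y k) = blk y (k + 1) := if_pos (by omega)
      rw [this]; exact hN y (k + 1) h1 h3 (by omega)
    · exact hw.elim
    · obtain ⟨rfl, rfl⟩ := hw
      exact hzU
    · exact hw.elim
  · obtain ⟨N, h1, h2, h3⟩ := nhd_inf hU (show inf ∈ U from hzU)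
    refine ⟨oI (N + 1), isOpen_oI _, trivial, ?_⟩
    intro w _ hw
    rcases w with ⟨y, k⟩ | ⟨i, n⟩ | ⟨j, m⟩ | _
    · obtain ⟨h4, h5⟩ := hw
      have : phi (blk y k) = blk y (k + 1) := if_pos (by omega)
      rw [this]; exact h3 y (k + 1) (by omega) (by omega)
    · have hw' : N + 1 ≤ n := hw
      exact h1 i (n + 1) (by omega)
    · have hw' : N + 1 ≤ m := hw
      exact h2 j (m - 1) (by omega)
    · exact hzU

theorem cont_psi : Continuous ((maps_psi E).restrict psi (A E FR) (A E FL)) := by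
  apply continuous_restrict'
  intro z hz U hU hzU
  rcases z with ⟨x, n⟩ | ⟨i, n⟩ | ⟨j, m⟩ | _
  · by_cases h : n = 0
    · have hzU' : blk x (bb x) ∈ U := by
        have : psi (blk x n) = blk x (bb x) := if_pos h
        rwa [this] at hzU
      refine ⟨oD x.1 n {y | blk y (bb x) ∈ U}, isOpen_oD _ _ _ (nhd_blk hU _),
        ⟨rfl, rfl, hzU'⟩, ?_⟩
      intro w _ hw
      rcases w with ⟨y, k⟩ | _ | _ | _
      · obtain ⟨rfl, h2, h3⟩ := hw
        have : psi (blk y k) = blk y (bb y) := if_pos h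
        rw [this, bb_eq h2]; exact h3
      · exact hw.elim
      · exact hw.elim
      · exact hw.elim
    · have hzU' : blk x (n - 1) ∈ U := by
        have : psi (blk x n) = blk x (n - 1) := if_neg h
        rwa [this] at hzU
      refine ⟨oD x.1 n {y | blk y (n - 1) ∈ U}, isOpen_oD _ _ _ (nhd_blk hU _),
        ⟨rfl, rfl, hzU'⟩, ?_⟩
      intro w _ hw
      rcases w with ⟨y, k⟩ | _ | _ | _
      · obtain ⟨rfl, h2, h3⟩ := hw
        have : psi (blk y k) = blk y (k - 1) := if_neg h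
        rw [this]; exact h3
      · exact hw.elim
      · exact hw.elim
      · exact hw.elim
  · have hn : 1 ≤ n := by
      rcases hz with h | ⟨_, h⟩
      · exact h
      · cases h
    obtain ⟨N, hN⟩ := nhd_L hU (show L i (n - 1) ∈ U from hzU)
    refine ⟨oL i n N, isOpen_oL _ _ _, ⟨rfl, rfl⟩, ?_⟩
    intro w _ hw
    rcases w with ⟨y, k⟩ | _ | _ | _
    · obtain ⟨rfl, h2, h3⟩ := hw
      have : psi (blk y k) = blk y (k - 1) := if_neg (by omega)
      rw [this]; exact hN y h2 h3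
    · obtain ⟨rfl, rfl⟩ := hw
      exact hzU
    · exact hw.elim
    · exact hw.elim
  · obtain ⟨N, hN⟩ := nhd_R hU (show R j (m + 1) ∈ U from hzU)
    refine ⟨oR j m (N + m + 1), isOpen_oR _ _ _, ⟨rfl, rfl⟩, ?_⟩
    intro w _ hw
    rcases w with ⟨y, k⟩ | _ | _ | _
    · obtain ⟨h1, h2, h3⟩ := hw
      have : psi (blk y k) = blk y (k - 1) := if_neg (by omega)
      rw [this]; exact hN y (k - 1) h1 (by omega) (by omega)
    · exact hw.elim
    · obtain ⟨rfl, rfl⟩ := hw
      exact hzU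
    · exact hw.elim
  · obtain ⟨N, h1, h2, h3⟩ := nhd_inf hU (show inf ∈ U from hzU)
    refine ⟨oI (N + 1), isOpen_oI _, trivial, ?_⟩
    intro w _ hw
    rcases w with ⟨y, k⟩ | ⟨i, n⟩ | ⟨j, m⟩ | _
    · obtain ⟨h4, h5⟩ := hw
      have : psi (blk y k) = blk y (k - 1) := if_neg (by omega)
      rw [this]; exact h3 y (k - 1) (by omega) (by omega)
    · have hw' : N + 1 ≤ n := hw
      exact h1 i (n - 1) (by omega)
    · have hw' : N + 1 ≤ m := hw
      exact h2 j (m + 1) (by omega)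
    · exact hzU

theorem phi_psi {z : W} (hz : z ∈ A E FR) : phi (psi z) = z := by
  rcases z with ⟨x, n⟩ | ⟨i, n⟩ | ⟨j, m⟩ | _
  · obtain ⟨h1, h2⟩ := hz
    by_cases h : n = 0
    · have e : psi (blk x n) = blk x (bb x) := if_pos h
      rw [e]
      have e2 : phi (blk x (bb x)) = blk x 0 := if_neg (by omega)
      rw [e2, h]
    · have e : psi (blk x n) = blk x (n - 1) := if_neg h
      rw [e]
      have e2 : phi (blk x (n - 1)) = blk x (n - 1 + 1) := if_pos (by omega)
      rw [e2, show n - 1 + 1 = n by omega]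
  · have hn : 1 ≤ n := by
      rcases hz with h | ⟨_, h⟩
      · exact h
      · cases h
    show L i (n - 1 + 1) = L i n
    rw [show n - 1 + 1 = n by omega]
  · rfl
  · rfl

/-- the embedding of the space with all right endpoints in the one with both left endpoints -/
theorem emb_RL : ∃ g : A E FR → A E FL, IsEmbedding g := by
  refine ⟨(maps_psi E).restrict psi (A E FR) (A E FL), ?_⟩
  refine Function.LeftInverse.isEmbedding (f := (maps_phi E).restrict phi (A E FL) (A E FR))
    ?_ (cont_phi E) (cont_psi E)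
  rintro ⟨z, hz⟩
  exact Subtype.ext (phi_psi E hz)

end Pool.Agent.DimType
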